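import Pool.Agent.H57.RQ.Loc

/-!
# H57 RN LOC: local `p ^ k`-th powers above `p`, for all primes `p` (also `p = 2`)

`dpn`: `Dp p (k+1) x → Pk p k x`. Newton: `t = (x - 1) / p`, `y = 1 + t`, `x y ^ (-p) - 1` is at most `v (t) ^ 2`; `v (x - 1) / v (p) ^ 2` is squared in every step.
-/

set_option autoImplicit false

open scoped NumberField
open IsDedekindDomain
open scoped Classical

noncomputable section

namespace H57.RQ.N

open H63.MA

variable {K : Type} [Field K] [NumberField K] {p k : ℕ}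

private theorem lon_unit {v : Pl K} {x : K} (h : v.valuation K (x - 1) < 1) :
    v.valuation K x = 1 := by
  have h1 := Valuation.map_one_add_of_lt (v := v.valuation K) (x := x - 1) h
  rwa [add_sub_cancel] at h1

private theorem lon_mul {v : Pl K} {δ : WithZero (Multiplicative ℤ)} (hδ : δ ≤ 1) {x y : Kˣ}
    (hx : v.valuation K ((x : K) - 1) < δ) (hy : v.valuation K ((y : K) - 1) < δ) :
    v.valuation K (((x * y : Kˣ) : K) - 1) < δ := by
  have h1 : ((x * y : Kˣ) : K) - 1 = ((x : K) - 1) * y + ((y : K) - 1) := by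
    rw [Units.val_mul]
    ring
  rw [h1]
  refine lt_of_le_of_lt (Valuation.map_add _ _ _) (max_lt ?_ hy)
  rw [map_mul, lon_unit (lt_of_lt_of_le hy hδ), mul_one]
  exact hx

private theorem lon_pow {v : Pl K} {δ : WithZero (Multiplicative ℤ)} (hδ : δ ≤ 1) {x : Kˣ}
    (hx : v.valuation K ((x : K) - 1) < δ) (n : ℕ) :
    v.valuation K (((x ^ n : Kˣ) : K) - 1) < δ := by
  have h0 : (0 : WithZero (Multiplicative ℤ)) < δ := lt_of_le_of_lt zero_le' hx
  induction n with
  | zero =>
    rw [pow_zero, Units.val_one, sub_self, map_zero]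
    exact h0
  | succ n ih =>
    rw [pow_succ]
    exact lon_mul hδ ih hx

private theorem lon_nat (v : Pl K) (n : ℕ) : v.valuation K (n : K) ≤ 1 := by
  have h1 : algebraMap (𝓞 K) K (n : 𝓞 K) = (n : K) := map_natCast (algebraMap (𝓞 K) K) n
  rw [← h1]
  exact v.valuation_le_one _

private theorem lon_p0 (hp : p.Prime) (v : Pl K) : 0 < v.valuation K (p : K) := by
  rw [zero_lt_iff, Valuation.ne_zero_iff]
  exact_mod_cast hp.ne_zero

private theorem lon_binom (hp : p.Prime) {v : Pl K} {t : K} (ht : v.valuation K t ≤ 1) :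
    v.valuation K ((1 + t) ^ p - 1 - p * t) ≤ v.valuation K t ^ 2 := by
  obtain ⟨q, rfl⟩ : ∃ q, p = q + 1 := ⟨p - 1, by have := hp.two_le; omega⟩
  have e1 : (1 + t) ^ (q + 1) - 1 - ((q + 1 : ℕ) : K) * t =
      ∑ m ∈ Finset.range q, t ^ (m + 2) * (((q + 1).choose (m + 2) : ℕ) : K) := by
    rw [add_comm (1 : K) t, add_pow, Finset.sum_range_succ', Finset.sum_range_succ']
    simp only [one_pow, mul_one, pow_zero, one_mul, zero_add, pow_one, Nat.choose_zero_right,
      Nat.choose_one_right, Nat.cast_one]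
    ring
  rw [e1]
  refine Valuation.map_sum_le _ fun m hm => ?_
  rw [map_mul, map_pow]
  calc v.valuation K t ^ (m + 2) * v.valuation K (((q + 1).choose (m + 2) : ℕ) : K)
      ≤ v.valuation K t ^ 2 * 1 :=
        mul_le_mul' (pow_le_pow_right_of_le_one' ht (by omega)) (lon_nat v _)
    _ = _ := mul_one _

private theorem lon_step (hp : p.Prime) {v : Pl K} (hv : Above p v) {j : ℕ}
    (hj : 1 ≤ j) {x : Kˣ} (hx : v.valuation K ((x : K) - 1) < v.valuation K (p : K) ^ (j + 1))
    (n : ℕ) : ∃ y : Kˣ, v.valuation K ((y : K) - 1) < v.valuation K (p : K) ^ j ∧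
      v.valuation K (((x * (y ^ p)⁻¹ : Kˣ) : K) - 1) < v.valuation K (p : K) ^ n := by
  have ha1 := (above_iff p v).1 hv
  have ha0 := lon_p0 hp v
  have hp0 : (p : K) ≠ 0 := by exact_mod_cast hp.ne_zero
  obtain ⟨a, ha⟩ : ∃ a, a = v.valuation K (p : K) := ⟨_, rfl⟩
  rw [← ha] at ha1 ha0 hx ⊢
  obtain ⟨c, hc⟩ : ∃ c, c = v.valuation K ((x : K) - 1) / a ^ 2 := ⟨_, rfl⟩
  have ha2 : 0 < a ^ 2 := pow_pos ha0 2
  have hc1 : c < 1 := by
    rw [hc, div_lt_one₀ ha2]
    exact lt_of_lt_of_le hx (pow_le_pow_right_of_le_one' ha1.le (by omega))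
  have hca : a ^ 2 * c = v.valuation K ((x : K) - 1) := by
    rw [hc, mul_div_cancel₀ _ ha2.ne']
  have key : ∀ m : ℕ, ∃ y : Kˣ, v.valuation K ((y : K) - 1) < a ^ j ∧
      v.valuation K (((x * (y ^ p)⁻¹ : Kˣ) : K) - 1) ≤ a ^ 2 * c ^ (m + 1) := by
    intro m
    induction m with
    | zero =>
      refine ⟨1, ?_, ?_⟩
      · rw [Units.val_one, sub_self, map_zero]
        exact pow_pos ha0 j
      · rw [one_pow, inv_one, mul_one, zero_add, pow_one, hca]
    | succ m ih =>
      obtain ⟨y, hy1, hy2⟩ := ih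
      set x' : Kˣ := x * (y ^ p)⁻¹ with hx'
      set t : K := ((x' : K) - 1) / p with ht
      have hcm : c ^ (m + 1) ≤ c := by
        calc c ^ (m + 1) ≤ c ^ 1 := pow_le_pow_right_of_le_one' hc1.le (by omega)
          _ = c := pow_one c
      have htv : v.valuation K t ≤ a * c ^ (m + 1) := by
        rw [ht, map_div₀, ← ha, div_le_iff₀ ha0]
        refine hy2.trans (le_of_eq ?_)
        rw [sq, mul_assoc, mul_comm a (a * _), mul_assoc]
      have htj : v.valuation K t < a ^ j := by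
        have h1 : v.valuation K t * a ≤ v.valuation K ((x : K) - 1) := by
          calc v.valuation K t * a ≤ (a * c ^ (m + 1)) * a := mul_le_mul' htv le_rfl
            _ ≤ (a * c) * a := mul_le_mul' (mul_le_mul' le_rfl hcm) le_rfl
            _ = a ^ 2 * c := by rw [sq, mul_comm (a * c) a, mul_assoc]
            _ = _ := hca
        have h2 : v.valuation K t * a < a ^ j * a := by
          rw [← pow_succ]
          exact lt_of_le_of_lt h1 hx
        exact lt_of_mul_lt_mul_right h2 zero_le'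
      have hta : v.valuation K t < 1 := lt_of_lt_of_le htj (pow_le_one₀ zero_le' ha1.le)
      have hu : v.valuation K (1 + t) = 1 :=
        Valuation.map_one_add_of_lt (v := v.valuation K) hta
      have hu0 : (1 + t) ≠ 0 := by
        intro h
        rw [h, map_zero] at hu
        exact zero_ne_one hu
      set y1 : Kˣ := Units.mk0 (1 + t) hu0 with hy1'
      have hy1v : ((y1 : Kˣ) : K) = 1 + t := rfl
      refine ⟨y * y1, ?_, ?_⟩
      · refine lon_mul (pow_le_one₀ zero_le' ha1.le) hy1 ?_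
        rw [hy1v, add_sub_cancel_left]
        exact htj
      · have e1 : x * ((y * y1) ^ p)⁻¹ = x' * (y1 ^ p)⁻¹ := by
          rw [hx', mul_pow, mul_inv, mul_assoc]
        have e2 : ((x' * (y1 ^ p)⁻¹ : Kˣ) : K) - 1 =
            -(((1 + t) ^ p - 1 - p * t) * ((1 + t) ^ p)⁻¹) := by
          rw [Units.val_mul, Units.val_inv_eq_inv_val, Units.val_pow_eq_pow_val, hy1v]
          have e3 : (p : K) * t = (x' : K) - 1 := by
            rw [ht]
            field_simp
          rw [e3]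
          have := pow_ne_zero p hu0
          field_simp
          ring
        rw [e1, e2, Valuation.map_neg, map_mul, map_inv₀, map_pow, hu, one_pow, inv_one, mul_one]
        refine (lon_binom hp hta.le).trans ?_
        calc v.valuation K t ^ 2 ≤ (a * c ^ (m + 1)) ^ 2 := pow_le_pow_left₀ zero_le' htv 2
          _ = a ^ 2 * c ^ (2 * m + 2) := by rw [mul_pow, ← pow_mul]; congr 2; ring
          _ ≤ a ^ 2 * c ^ (m + 1 + 1) :=
            mul_le_mul' le_rfl (pow_le_pow_right_of_le_one' hc1.le (by omega))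
  obtain ⟨N, hN⟩ := exists_pow_lt₀ hc1 (Units.mk0 (a ^ n) (pow_pos ha0 n).ne')
  rw [Units.val_mk0] at hN
  obtain ⟨y, hy1, hy2⟩ := key N
  refine ⟨y, hy1, lt_of_le_of_lt hy2 (lt_of_le_of_lt ?_ hN)⟩
  calc a ^ 2 * c ^ (N + 1) ≤ 1 * c ^ N :=
        mul_le_mul' (pow_le_one₀ zero_le' ha1.le) (pow_le_pow_right_of_le_one' hc1.le (by omega))
    _ = _ := one_mul _

private theorem lon_iter (hp : p.Prime) {v : Pl K} (hv : Above p v) (k : ℕ) :
    ∀ (j : ℕ), 1 ≤ j → ∀ (x : Kˣ),
      v.valuation K ((x : K) - 1) < v.valuation K (p : K) ^ (j + k) → ∀ n : ℕ,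
      ∃ y : Kˣ, v.valuation K ((y : K) - 1) < v.valuation K (p : K) ^ j ∧
      v.valuation K (((x * (y ^ p ^ k)⁻¹ : Kˣ) : K) - 1) < v.valuation K (p : K) ^ n := by
  have ha1 := (above_iff p v).1 hv
  have ha0 := lon_p0 hp v
  induction k with
  | zero =>
    intro j hj x hx n
    refine ⟨x, by simpa using hx, ?_⟩
    rw [pow_zero, pow_one, mul_inv_cancel, Units.val_one, sub_self, map_zero]
    exact pow_pos ha0 n
  | succ k ih =>
    intro j hj x hx n
    obtain ⟨y1, h1, h2⟩ := lon_step hp hv (j := j + k) (by omega) (x := x)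
      (by rw [add_assoc]; exact hx) n
    obtain ⟨y, h3, h4⟩ := ih j hj y1 h1 n
    refine ⟨y, h3, ?_⟩
    have e1 : x * (y ^ p ^ (k + 1))⁻¹ = (x * (y1 ^ p)⁻¹) * (y1 * (y ^ p ^ k)⁻¹) ^ p := by
      rw [mul_pow, inv_pow, ← pow_mul, ← pow_succ, mul_assoc, inv_mul_cancel_left]
    rw [e1]
    have hn1 : v.valuation K (p : K) ^ n ≤ 1 := pow_le_one₀ zero_le' ha1.le
    refine lon_mul hn1 h2 ?_
    exact lon_pow hn1 h4 p

theorem dpn (hp : p.Prime) {x : Kˣ} (h : Dp p (k + 1) x) : Pk p k x := by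
  intro v hv n
  have h1 := h v hv
  rw [map_pow, add_comm] at h1
  obtain ⟨y, -, hy⟩ := lon_iter hp hv k 1 le_rfl x h1 n
  exact ⟨y, by rw [map_pow]; exact hy⟩

end H57.RQ.N
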