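import Pool.Agent.H57.RN.Def
import Pool.Agent.H57.RN.Loc
import Pool.Agent.H57.RQ.Ncl
import Pool.Agent.H57.RQ.Sym
import Pool.Agent.H63.MA.KumD

/-!
# [H57 RN NCL] (all primes; copy of H57/RQ) norms and the symbols of order `p ^ k`, local, 200-300 lines. File Pool/Agent/H57/RQ/Ncl.lean

`L = K(c^(1/p))`, `v ∤ p`, `x ∈ K^*`, `b ∈ L^*`: `Bk_v(x, N b) = ∑_(w over v) Bk_w(x, b)`.
Tools: H63/MA/KumB (`split_case`, `nonsplit_case`, `over_conj`, `nonsplit_stable`, `nonsplit_one1`, `card_over`), KumC (`inert_case`, `ram_case`, `kum_norm` (KumA): `inc (N b) = ∏_(i<p) σ^i b`,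
`kum_norm_γ`, `kum_norm_inc`), see the proof of `B_norm` (KumD). `lq_iff`, `bk_unit`, `bk_symm`.
* `lq_up`: for `u ∈ K`, `ord v u = 0`: if `N w = N v` then `lg_w (inc u) = lg_v u`; in general `lg_w (inc u) = f lg_v u`, `N w = N v ^ f` (`(N v ^ f - 1) / q = ((N v - 1) / q) (1 + N v + ..)`,
  `N v ≡ 1` mod `q`). (compatibility of the residue classes: `one1_over`, `symb_rs_eq_iff`.)
* split case (`p` primes over `v`): `w_j` with `ord_(w_j) y = ord_w (σ^j y)` and `One1 w_j y ↔ One1 w (σ^j y)`; `Bk_w(x, σ^j b) = Bk_(w_j)(x, b)`; `Bk_w(inc x, inc a) = Bk_v(x, a)`; sum over `j`.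
* one prime `w`, `N w = N v ^ p`, `ord w (inc y) = ord v y`: `b = inc(π)^j u`, `ord w u = 0`. `N (inc π) = π ^ p`, `Bk_w(x, π) = p Bk_v(x, π)`. For `u`: `ord_w (N u) = 0`, and modulo `w`
  `N u = ∏ σ^i u ≡ u ^ (1 + N v + .. + N v ^ (p-1))` (the `σ^i` act on the residue field as all the powers of the Frobenius `y ↦ y ^ (N v)`: `σ` acts nontrivially of order `p` because otherwise
  `σ u ≡ u` for all `u` would give a residue field of `N v` elements: the classes fixed by `σ` are the classes of `K`, see `inert_case`; or: `Gal` maps onto the Galois group of the residue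
  fields), so `lg_v (N u) = lg_w u`; and `Bk_v(x, N u) = - ord_v x lg_v (N u)`, `Bk_w(x, u) = - ord_w x lg_w u`.
* one prime `w`, `N w = N v`, `ord w (inc y) = p ord v y` (ramified): every `w`-unit `u` is `≡ r ∈ K` modulo `w`; `N u ≡ r ^ p` modulo `v`, `lg_v (N u) = p lg_w u`, `ord_w x = p ord_v x`: units are
  clear. `N γ = c s ^ p`, `s ^ (2p) = 1`, so `s = ± 1`.. (`kum_norm_γ`; `p` odd: `lq_neg`); `ord w γ = ord v c = e` prime to `p`. `Bk_w(c, γ) = p Bk_w(γ, γ) = 0 = Bk_v(c, c)`; for a unit `x`: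
  `Bk_w(x, γ) = e lg_w x = e lg_v x = Bk_v(x, c)`; a power `x ^ e'` (`e'` prime to `p`) of every `x` is a unit times a power of `c`, and `b ^ e` is a unit times a power of `γ`: cancel `e`, `e'`
  in `ZMod (p ^ k)` (units there).
-/

set_option autoImplicit false

open scoped NumberField
open IsDedekindDomain
open scoped Classical

noncomputable section

namespace H57.RQ.N

open H63.MA


section aux

variable {K : Type} [Field K] [NumberField K] {L : Type} [Field L] [NumberField L] [Algebra K L]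

private theorem z_up {q : ℕ} {z : K} (hz : IsPrimitiveRoot z q) :
    IsPrimitiveRoot (algebraMap K L z) q := hz.map_of_injective (algebraMap K L).injective

private theorem z_val {q : ℕ} (hq : q ≠ 0) {z : K} (hz : IsPrimitiveRoot z q) (v : Pl K) :
    v.valuation K z = 1 := kumc_root v hq hz.pow_eq_one

/-- the defining congruence of `lg`, lifted to `w` -/
private theorem lg_lift {p k : ℕ} (hp : p.Prime) {z : K} (hz : IsPrimitiveRoot z (p ^ k)) {v : Pl K}
    (hv : ¬ Above p v) {w : Pl L} (hw : Over w v) {u : Kˣ} (hu : ord v u = 0) :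
    symb_rs w ((inc K L u : Lˣ) : L) ^ ((nm v - 1) / p ^ k) =
      symb_rs w (algebraMap K L z) ^ (lg (p ^ k) z v u).val := by
  have hq : p ^ k ≠ 0 := pow_ne_zero _ hp.ne_zero
  have h1 := (lq_iff hp hz hv hu (lg (p ^ k) z v u)).1 rfl
  have hu1 : v.valuation K (u : K) = 1 := (ord_eq_zero_iff v u).1 hu
  have hz1 := z_val hq hz v
  rw [← symb_rs_pow v hu1.le, ← symb_rs_pow v hz1.le, symb_rs_eq_iff v (by rw [map_pow, hu1, one_pow])
    (by rw [map_pow, hz1, one_pow])] at h1
  have h2 := kumc_lt hw ((u : K) ^ ((nm v - 1) / p ^ k) - z ^ (lg (p ^ k) z v u).val) 1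
    (by rw [map_one]; exact h1)
  have hu2 : w.valuation L ((inc K L u : Lˣ) : L) = 1 := by
    obtain ⟨e, -, he⟩ := ord_inc (K := K) (L := L) hw
    exact (ord_eq_zero_iff w _).1 (by rw [he, hu, mul_zero])
  have hz2 : w.valuation L (algebraMap K L z) = 1 := z_val hq (z_up hz) w
  rw [← symb_rs_pow w hu2.le, ← symb_rs_pow w hz2.le, symb_rs_eq_iff w (by rw [map_pow, hu2, one_pow])
    (by rw [map_pow, hz2, one_pow])]
  have e1 : algebraMap K L ((u : K) ^ ((nm v - 1) / p ^ k) - z ^ (lg (p ^ k) z v u).val) =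
      ((inc K L u : Lˣ) : L) ^ ((nm v - 1) / p ^ k) - (algebraMap K L z) ^ (lg (p ^ k) z v u).val := by
    rw [map_sub, map_pow, map_pow]
    rfl
  rw [e1, map_one, map_one] at h2
  exact h2

private theorem rs_pow_cast {p k : ℕ} (hp : p.Prime) {z : K} (hz : IsPrimitiveRoot z (p ^ k)) {v : Pl K}
    (hv : ¬ Above p v) (m : ℕ) : symb_rs v z ^ m = symb_rs v z ^ ((m : ZMod (p ^ k))).val := by
  have hq : NeZero (p ^ k) := ⟨pow_ne_zero _ hp.ne_zero⟩
  rw [ZMod.val_natCast]
  exact pow_eq_pow_mod m (sq_zeta hp hz hv).pow_eq_one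

private theorem geo_div {N f q : ℕ} (hN : 1 ≤ N) (hq : q ∣ N - 1) :
    (N ^ f - 1) / q = (N - 1) / q * ∑ i ∈ Finset.range f, N ^ i := by
  obtain ⟨t, ht⟩ := hq
  have h1 : N ^ f - 1 = (N - 1) * ∑ i ∈ Finset.range f, N ^ i := by
    obtain ⟨m, rfl⟩ : ∃ m, N = m + 1 := ⟨N - 1, by omega⟩
    rw [← geom_sum_mul_add m f, Nat.add_sub_cancel, Nat.add_sub_cancel, mul_comm]
  rcases Nat.eq_zero_or_pos q with h0 | h0
  · rw [h0, Nat.div_zero, Nat.div_zero, zero_mul]
  · rw [h1, ht, Nat.mul_div_cancel_left _ h0, mul_assoc, Nat.mul_div_cancel_left _ h0]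

private theorem nm_cast {p k : ℕ} (hp : p.Prime) {z : K} (hz : IsPrimitiveRoot z (p ^ k)) {v : Pl K}
    (hv : ¬ Above p v) : ((nm v : ℕ) : ZMod (p ^ k)) = 1 := by
  have h1 := sq_dvd hp hz hv
  have h2 : ((nm v - 1 : ℕ) : ZMod (p ^ k)) = 0 := (ZMod.natCast_eq_zero_iff _ _).2 h1
  have h3 : nm v = (nm v - 1) + 1 := by
    have := one_lt_nm v
    omega
  rw [h3, Nat.cast_add, h2, Nat.cast_one, zero_add]

end aux


section split

variable {K : Type} [Field K] [NumberField K] {L : Type} [Field L] [NumberField L] [Algebra K L]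

private def lgF {q : ℕ} (P : ZMod q → Prop) : ZMod q := if h : ∃ a : ZMod q, P a then h.choose else 0

private theorem lg_eqF {q : ℕ} (z : K) (v : Pl K) (u : Kˣ) : lg q z v u =
    lgF (fun a : ZMod q => v.valuation K ((u : K) ^ ((nm v - 1) / q) - z ^ a.val) < 1) := rfl

private theorem lg_conj {q : ℕ} {z : K} {w w' : Pl K} (s : K → K) (s' : Kˣ → Kˣ)
    (hs' : ∀ u : Kˣ, ((s' u : Kˣ) : K) = s (u : K))
    (hv : ∀ y : K, w.valuation K y = w'.valuation K (s y)) (hs1 : ∀ (u : K) (n m : ℕ),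
      s (u ^ n - z ^ m) = s u ^ n - z ^ m) (hn : nm w = nm w') (u : Kˣ) :
    lg q z w u = lg q z w' (s' u) := by
  rw [lg_eqF, lg_eqF]
  congr 1
  funext a
  rw [hv, hs1, hn, hs']

private theorem pl_ext {w w' : Pl L} (h : ∀ y : Lˣ, ord w y = ord w' y) : w = w' := by
  apply HeightOneSpectrum.ext
  ext a
  by_cases ha : a = 0
  · rw [ha]
    simp
  · have ha1 : algebraMap (𝓞 L) L a ≠ 0 := by
      rwa [Ne, FaithfulSMul.algebraMap_eq_zero_iff]
    rw [← w.valuation_lt_one_iff_mem (K := L), ← w'.valuation_lt_one_iff_mem (K := L)]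
    have h1 := h (Units.mk0 _ ha1)
    have h2 := ord_pos_iff w (Units.mk0 _ ha1)
    have h3 := ord_pos_iff w' (Units.mk0 _ ha1)
    rw [Units.val_mk0] at h2 h3
    rw [← h2, ← h3, h1]

private theorem val_of_ord {w w' : Pl L} (s : L ≃ₐ[K] L) (h : ∀ y : Lˣ, ord w' y = ord w (au s y))
    (y : L) : w'.valuation L y = w.valuation L (s y) := by
  by_cases hy : y = 0
  · rw [hy, map_zero, map_zero, map_zero]
  · have h1 := val_eq w' (Units.mk0 y hy)
    have h2 := val_eq w (au s (Units.mk0 y hy))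
    have h3 : ((au s (Units.mk0 y hy) : Lˣ) : L) = s y := rfl
    rw [Units.val_mk0] at h1
    rw [h3] at h2
    rw [h1, h2, h]

private theorem au_inc (s : L ≃ₐ[K] L) (x : Kˣ) : au s (inc K L x) = inc K L x := by
  apply Units.ext
  exact s.commutes (x : K)

/-- transport of the symbol -/
private theorem bk_conj {p k : ℕ} {z : K} {v : Pl K} {w w' : Pl L} (hv : ¬ Above p v)
    (hw : Over w v) (hw' : Over w' v) (hn : nm w' = nm w) (s : L ≃ₐ[K] L)
    (h : ∀ y : Lˣ, ord w' y = ord w (au s y)) (x : Kˣ) (b : Lˣ) :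
    Bk p k (algebraMap K L z) w' (inc K L x) b = Bk p k (algebraMap K L z) w (inc K L x) (au s b) := by
  unfold Bk
  rw [if_neg (fun h => hv ((above_over hw' p).1 h)), if_neg (fun h => hv ((above_over hw p).1 h))]
  unfold B
  rw [lg_conj (w := w') (w' := w) (fun y => s y) (au s) (fun _ => rfl) (val_of_ord s h) ?_ hn,
    map_mul, map_inv, map_zpow, map_zpow, au_inc, h b, h (inc K L x), au_inc]
  intro u n m
  rw [map_sub, map_pow, map_pow, AlgEquiv.commutes]

/-- the symbol of elements of `K` -/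
private theorem bk_up {p k : ℕ} (hp : p.Prime) {z : K} (hz : IsPrimitiveRoot z (p ^ k)) {v : Pl K}
    (hv : ¬ Above p v) {w : Pl L} (hw : Over w v) {f : ℕ} (hf : nm w = nm v ^ f)
    (he : ∀ x : Kˣ, ord w (inc K L x) = ord v x) (x a : Kˣ) :
    Bk p k (algebraMap K L z) w (inc K L x) (inc K L a) = f * Bk p k z v x a := by
  unfold Bk
  rw [if_neg (fun h => hv ((above_over hw p).1 h)), if_neg hv]
  unfold B
  rw [he, he, ← map_zpow, ← map_zpow, ← map_inv, ← map_mul]
  refine lq_up hp hz hv hw hf ?_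
  rw [ord_mul, ord_inv, ord_zpow, ord_zpow]
  ring

private theorem bk_sum {ι : Type} {p k : ℕ} (hp : p.Prime) {z : K} (hz : IsPrimitiveRoot z (p ^ k))
    (v : Pl K) (x : Kˣ) (s : Finset ι) (g : ι → Kˣ) :
    ∑ i ∈ s, Bk p k z v x (g i) = Bk p k z v x (∏ i ∈ s, g i) := by
  induction s using Finset.induction_on with
  | empty =>
    rw [Finset.sum_empty, Finset.prod_empty]
    have h := bk_mul_right hp hz v x 1 1
    rw [mul_one] at h
    exact (left_eq_add.1 h).symm
  | insert a s ha ih => rw [Finset.sum_insert ha, Finset.prod_insert ha, ih, bk_mul_right hp hz]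

private theorem ncl_split {p k : ℕ} (hp : p.Prime) {ζ : K} (hζ : IsPrimitiveRoot ζ p) {c : Kˣ}
    (H : Kum p K ζ c L) {z : K} (hz : IsPrimitiveRoot z (p ^ k)) {v : Pl K} (hv : ¬ Above p v)
    (hg : {w : Pl L | Over w v}.ncard = p) (x : Kˣ) (b : Lˣ) :
    Bk p k z v x (Nm K L b) = ∑ᶠ w ∈ {w : Pl L | Over w v}, Bk p k (algebraMap K L z) w (inc K L x) b := by
  obtain ⟨w, hw⟩ := exists_over (L := L) v
  obtain ⟨h1, h2, -⟩ := split_case hp hζ H hg hw
  have hn : ∀ w' : Pl L, Over w' v → nm w' = nm v := fun w' hw' => (split_case hp hζ H hg hw').2.1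
  choose j hj1 hj2 using fun (w' : {w' : Pl L // Over w' v}) => over_conj hp hζ H hw w'.2
  have hinj : Function.Injective j := by
    intro a a' haa
    apply Subtype.ext
    apply pl_ext
    intro y
    rw [hj2 a, hj2 a', haa]
  have hfin : {w : Pl L | Over w v}.Finite := over_finite v
  rw [finsum_mem_eq_finite_toFinset_sum _ hfin]
  have h3 : ∑ w' ∈ hfin.toFinset, Bk p k (algebraMap K L z) w' (inc K L x) b =
      ∑ i ∈ Finset.range p, Bk p k (algebraMap K L z) w (inc K L x) (au (H.σ ^ i) b) := by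
    refine Finset.sum_bij (fun w' hw' => j ⟨w', (Set.Finite.mem_toFinset hfin).1 hw'⟩) ?_ ?_ ?_ ?_
    · intro a ha
      exact Finset.mem_range.2 (hj1 _)
    · intro a ha a' ha' h
      exact congrArg Subtype.val (hinj h)
    · have hc : hfin.toFinset.card = (Finset.range p).card := by
        rw [Finset.card_range, ← Set.ncard_eq_toFinset_card _ hfin, hg]
      intro i hi
      obtain ⟨a, ha, ha'⟩ := Finset.surj_on_of_inj_on_of_card_le
        (fun w' hw' => j ⟨w', (Set.Finite.mem_toFinset hfin).1 hw'⟩)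
        (fun a ha => Finset.mem_range.2 (hj1 _))
        (fun a a' ha ha' h => congrArg Subtype.val (hinj h)) hc.ge i hi
      exact ⟨a, ha, ha'.symm⟩
    · intro w' hw'
      have hw'' : Over w' v := (Set.Finite.mem_toFinset hfin).1 hw'
      exact bk_conj hv hw hw'' ((hn w' hw'').trans h2.symm) _ (hj2 ⟨w', hw''⟩) x b
  rw [h3, bk_sum hp (z_up hz), ← kum_norm hp hζ H, bk_up hp hz hv hw (f := 1) (by rw [h2, pow_one]) h1]
  rw [Nat.cast_one, one_mul]

end split

section inert

variable {K : Type} [Field K] [NumberField K] {L : Type} [Field L] [NumberField L] [Algebra K L]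

/-- the Kummer extension with another generator -/
private def kumJ {p : ℕ} (hp : p.Prime) {ζ : K} (hζ : IsPrimitiveRoot ζ p) {c : Kˣ} (H : Kum p K ζ c L)
    (j : ℕ) : Kum p K (ζ ^ j) c L :=
  { γ := H.γ
    σ := H.σ ^ j
    hγ := H.hγ
    hσ := kum_pow hp hζ H j
    deg := H.deg }

/-- the Frobenius -/
private theorem frob {p : ℕ} (hp : p.Prime) {ζ : K} (hζ : IsPrimitiveRoot ζ p) {c : Kˣ}
    (H : Kum p K ζ c L) {v : Pl K} (hg : {w : Pl L | Over w v}.ncard = 1)
    {w : Pl L} (hw : Over w v) (hn : nm w = nm v ^ p) : ∃ j : ℕ, j.Coprime p ∧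
      ∀ u : L, w.valuation L u ≤ 1 → symb_rs w ((H.σ ^ j) u) = symb_rs w u ^ nm v := by
  have : w.asIdeal.IsPrime := w.isPrime
  have hgal : IsGalois K L := kum_galois hp hζ H
  have hfd : FiniteDimensional K L := kuma_fd hp H
  have : Finite (𝓞 L ⧸ w.asIdeal) := Ideal.finiteQuotientOfFreeOfNeBot _ w.ne_bot
  obtain ⟨s, hs⟩ := IsArithFrobAt.exists_of_isInvariant (𝓞 K) (L ≃ₐ[K] L) w.asIdeal
  obtain ⟨j, hj, rfl⟩ := kum_gen hp hζ H s
  have hcard : Nat.card (𝓞 K ⧸ w.asIdeal.under (𝓞 K)) = nm v := by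
    have h1 : w.asIdeal.under (𝓞 K) = v.asIdeal := hw
    rw [h1]
    exact symb_card v
  have hint : ∀ a : 𝓞 L, symb_rs w ((H.σ ^ j) (algebraMap (𝓞 L) L a)) =
      symb_rs w (algebraMap (𝓞 L) L a) ^ nm v := by
    intro a
    have h1 := hs.mk_apply a
    rw [hcard] at h1
    have h2 : (H.σ ^ j) (algebraMap (𝓞 L) L a) =
        algebraMap (𝓞 L) L ((MulSemiringAction.toAlgHom (𝓞 K) (𝓞 L) (H.σ ^ j)) a) := rfl
    rw [h2, symb_rs_int, symb_rs_int]
    exact h1
  have hstab : ∀ (i : ℕ) (y : L), w.valuation L ((H.σ ^ i) y) = w.valuation L y := by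
    intro i
    induction i with
    | zero => exact fun y => rfl
    | succ i ih =>
      intro y
      rw [pow_succ', AlgEquiv.mul_apply, kumc_val_σ hp hζ H hg hw, ih]
  refine ⟨j, ?_, ?_⟩
  · rw [Nat.coprime_comm, hp.coprime_iff_not_dvd]
    intro hd
    have hj0 : j = 0 := Nat.eq_zero_of_dvd_of_lt hd hj
    subst hj0
    have hN := one_lt_nm v
    have h1 : ∀ x : symbK w, x ^ nm v = x := by
      intro x
      obtain ⟨a, rfl⟩ := Ideal.Quotient.mk_surjective x
      have h2 := hint a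
      rw [pow_zero, AlgEquiv.one_apply, symb_rs_int] at h2
      exact h2.symm
    have hmax : w.asIdeal.IsMaximal := w.isMaximal
    let : Field (symbK w) := Ideal.Quotient.field w.asIdeal
    obtain ⟨g, hgen⟩ := IsCyclic.exists_generator (α := (symbK w)ˣ)
    have h3 : g ^ (nm v - 1) = 1 := by
      have h4 : g ^ (nm v - 1) * g = 1 * g := by
        rw [← pow_succ, Nat.sub_add_cancel hN.le, one_mul]
        apply Units.ext
        rw [Units.val_pow_eq_pow_val]
        exact h1 g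
      exact mul_right_cancel h4
    have h4 : orderOf g = nm w - 1 := by
      rw [orderOf_eq_card_of_forall_mem_zpowers hgen]
      exact symb_units_card w
    have h5 := orderOf_dvd_of_pow_eq_one h3
    rw [h4, hn] at h5
    have h6 := Nat.le_of_dvd (by omega) h5
    have h7 : nm v ^ 1 < nm v ^ p := Nat.pow_lt_pow_right hN hp.one_lt
    rw [pow_one] at h7
    omega
  · intro u hu
    obtain ⟨a, ha⟩ := symb_exists w u hu
    have h1 : w.valuation L ((H.σ ^ j) (algebraMap (𝓞 L) L a) - (H.σ ^ j) u) < 1 := by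
      rw [← map_sub, hstab]
      exact ha
    have h2 : symb_rs w u = symb_rs w (algebraMap (𝓞 L) L a) := by
      rw [symb_rs_eq w u a ha, symb_rs_int]
    have h3 : symb_rs w ((H.σ ^ j) u) = symb_rs w ((H.σ ^ j) (algebraMap (𝓞 L) L a)) := by
      rw [eq_comm, symb_rs_eq_iff w (by rw [hstab]; exact w.valuation_le_one a) (by rw [hstab]; exact hu)]
      exact h1
    rw [h3, h2, hint]

/-- norms in the inert case -/
private theorem rs_norm {p : ℕ} (hp : p.Prime) {ζ : K} (hζ : IsPrimitiveRoot ζ p) {c : Kˣ}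
    (H : Kum p K ζ c L) {v : Pl K} (hg : {w : Pl L | Over w v}.ncard = 1)
    {w : Pl L} (hw : Over w v) (hn : nm w = nm v ^ p) (u : Lˣ) (hu : ord w u = 0) :
    symb_rs w ((inc K L (Nm K L u) : Lˣ) : L) = symb_rs w (u : L) ^ (∑ i ∈ Finset.range p, nm v ^ i) := by
  obtain ⟨j, hj, hf⟩ := frob hp hζ H hg hw hn
  have hu1 : w.valuation L (u : L) = 1 := (ord_eq_zero_iff w u).1 hu
  have hζj : IsPrimitiveRoot (ζ ^ j) p := hζ.pow_of_coprime j hj
  have hσ : (kumJ hp hζ H j).σ = H.σ ^ j := rfl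
  have hval : ∀ (i : ℕ) (y : L), w.valuation L (((H.σ ^ j) ^ i) y) = w.valuation L y := by
    intro i
    induction i with
    | zero => exact fun y => rfl
    | succ i ih =>
      intro y
      have h5 := kumc_val_σ hp hζj (kumJ hp hζ H j) hg hw
      rw [hσ] at h5
      rw [pow_succ', AlgEquiv.mul_apply, h5, ih]
  have key : ∀ i : ℕ, symb_rs w (((H.σ ^ j) ^ i) (u : L)) = symb_rs w (u : L) ^ (nm v ^ i) := by
    intro i
    induction i with
    | zero => rw [pow_zero, pow_zero, pow_one]; rfl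
    | succ i ih =>
      rw [pow_succ', AlgEquiv.mul_apply, hf _ (by rw [hval]; exact hu1.le), ih, ← pow_mul, pow_succ (nm v)]
  have h1 := kum_norm hp hζj (kumJ hp hζ H j) u
  rw [hσ] at h1
  rw [h1, Units.coe_prod]
  have h2 : ∀ s : Finset ℕ, symb_rs w (∏ i ∈ s, ((au ((H.σ ^ j) ^ i) u : Lˣ) : L)) =
      symb_rs w (u : L) ^ (∑ i ∈ s, nm v ^ i) ∧
      w.valuation L (∏ i ∈ s, ((au ((H.σ ^ j) ^ i) u : Lˣ) : L)) ≤ 1 := by
    intro s
    induction s using Finset.induction_on with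
    | empty =>
      rw [Finset.prod_empty, Finset.sum_empty, pow_zero, map_one]
      exact ⟨symb_rs_one w, le_rfl⟩
    | insert a s ha ih =>
      have h3 : ((au ((H.σ ^ j) ^ a) u : Lˣ) : L) = ((H.σ ^ j) ^ a) (u : L) := rfl
      rw [Finset.prod_insert ha, Finset.sum_insert ha, h3,
        symb_rs_mul w (by rw [hval]; exact hu1.le) ih.2, ih.1, key, pow_add, map_mul, hval, hu1, one_mul]
      exact ⟨rfl, ih.2⟩
  exact (h2 _).1

end inert

section main

variable {K : Type} [Field K] [NumberField K] {L : Type} [Field L] [NumberField L] [Algebra K L]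

private theorem one_sum {q : ℕ} {v : Pl K} {w : Pl L} (hw : Over w v)
    (hg : {w : Pl L | Over w v}.ncard = 1) (f : Pl L → ZMod q) :
    ∑ᶠ w' ∈ {w : Pl L | Over w v}, f w' = f w := by
  obtain ⟨w0, hw0⟩ := Set.ncard_eq_one.1 hg
  have h : w ∈ {w : Pl L | Over w v} := hw
  rw [hw0] at h
  rw [hw0, finsum_mem_singleton, Set.mem_singleton_iff.1 h]

private theorem hom_eq {G : Type} [CommGroup G] {q : ℕ} (f g : G → ZMod q) (o : G → ℤ)
    (hf : ∀ x y, f (x * y) = f x + f y) (hg : ∀ x y, g (x * y) = g x + g y)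
    (hfz : ∀ (x : G) (n : ℤ), f (x ^ n) = n * f x) (hgz : ∀ (x : G) (n : ℤ), g (x ^ n) = n * g x)
    (ho : ∀ x y, o (x * y) = o x + o y) (hoz : ∀ (x : G) (n : ℤ), o (x ^ n) = n * o x)
    (c : G) (hc : IsUnit ((o c : ℤ) : ZMod q)) (hfc : f c = g c) (hu : ∀ u, o u = 0 → f u = g u)
    (x : G) : f x = g x := by
  have h1 : x ^ o c = c ^ o x * (x ^ o c * c ^ (-o x)) := by
    rw [zpow_neg, mul_comm, inv_mul_cancel_right]
  have h2 : o (x ^ o c * c ^ (-o x)) = 0 := by
    rw [ho, hoz, hoz]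
    ring
  have h3 : ((o c : ℤ) : ZMod q) * f x = ((o c : ℤ) : ZMod q) * g x := by
    rw [← hfz, ← hgz, h1, hf, hg, hfz, hgz, hfc, hu _ h2]
  exact hc.mul_left_cancel h3

private theorem ord_norm {p : ℕ} (hp : p.Prime) {ζ : K} (hζ : IsPrimitiveRoot ζ p) {c : Kˣ}
    (H : Kum p K ζ c L) {v : Pl K} (hg : {w : Pl L | Over w v}.ncard = 1)
    {w : Pl L} (hw : Over w v) (y : Lˣ) : ord w (inc K L (Nm K L y)) = p * ord w y := by
  have hstab : ∀ (i : ℕ) (z : Lˣ), ord w (au (H.σ ^ i) z) = ord w z := by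
    intro i z
    induction i with
    | zero => rfl
    | succ i ih =>
      have h1 : au (H.σ ^ (i + 1)) z = au H.σ (au (H.σ ^ i) z) := by
        rw [pow_succ']
        rfl
      rw [h1, nonsplit_stable hp hζ H hg hw, ih]
  rw [kum_norm hp hζ H, ord_prod, Finset.sum_congr rfl (fun i _ => hstab i y),
    Finset.sum_const, Finset.card_range, nsmul_eq_mul]

private theorem bk_unit' {p k : ℕ} (hp : p.Prime) {z : K} (hz : IsPrimitiveRoot z (p ^ k)) {v : Pl K}
    (hv : ¬ Above p v) {u : Kˣ} (hu : ord v u = 0) (a : Kˣ) :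
    Bk p k z v a u = -(ord v a * lg (p ^ k) z v u) := by
  rw [bk_symm hp hz, bk_unit hp hz hv hu]

private theorem ncl_inert {p k : ℕ} (hp : p.Prime) {ζ : K} (hζ : IsPrimitiveRoot ζ p) {c : Kˣ}
    (H : Kum p K ζ c L) {z : K} (hz : IsPrimitiveRoot z (p ^ k)) {v : Pl K} (hv : ¬ Above p v)
    (hg : {w : Pl L | Over w v}.ncard = 1) {w : Pl L} (hw : Over w v)
    (he : ∀ x : Kˣ, ord w (inc K L x) = ord v x) (hn : nm w = nm v ^ p) (x : Kˣ) (b : Lˣ) :
    Bk p k z v x (Nm K L b) = Bk p k (algebraMap K L z) w (inc K L x) b := by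
  obtain ⟨π, hπ⟩ := exists_unif v
  have hw1 : ¬ Above p w := fun h => hv ((above_over hw p).1 h)
  have hz' := z_up (L := L) hz
  refine hom_eq (fun b => Bk p k z v x (Nm K L b))
    (fun b => Bk p k (algebraMap K L z) w (inc K L x) b) (ord w) ?_ ?_ ?_ ?_ (ord_mul w) (ord_zpow w)
    (inc K L π) ?_ ?_ ?_ b
  · intro y y'
    simp only [map_mul]
    exact bk_mul_right hp hz v x _ _
  · intro y y'
    exact bk_mul_right hp hz' w _ _ _
  · intro y n
    simp only [map_zpow]
    exact bk_zpow_right hp hz v x _ n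
  · intro y n
    exact bk_zpow_right hp hz' w _ _ n
  · rw [he, hπ, Int.cast_one]
    exact isUnit_one
  · rw [kum_norm_inc hp hζ H, bk_up hp hz hv hw hn he, ← zpow_natCast, bk_zpow_right hp hz, Int.cast_natCast]
  · intro u hu
    have hN0 : ord v (Nm K L u) = 0 := by
      rw [← he, ord_norm hp hζ H hg hw, hu, mul_zero]
    have key : lg (p ^ k) (algebraMap K L z) w u = lg (p ^ k) z v (Nm K L u) := by
      rw [lq_iff hp hz' hw1 hu, ← lg_lift hp hz hv hw hN0, rs_norm hp hζ H hg hw hn u hu, ← pow_mul, hn,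
        geo_div (one_lt_nm v).le (sq_dvd hp hz hv), mul_comm]
    rw [bk_unit' hp hz hv hN0, bk_unit' hp hz' hw1 hu, he, key]

private theorem ncl_ram {p k : ℕ} (hp : p.Prime) (hp2 : MM p k K) {ζ : K} (hζ : IsPrimitiveRoot ζ p) {c : Kˣ}
    (H : Kum p K ζ c L) {z : K} (hz : IsPrimitiveRoot z (p ^ k)) {v : Pl K} (hv : ¬ Above p v)
    (hg : {w : Pl L | Over w v}.ncard = 1) {w : Pl L} (hw : Over w v)
    (he : ∀ x : Kˣ, ord w (inc K L x) = p * ord v x) (hn : nm w = nm v)
    (hr : ∀ z : Lˣ, ord w z = 0 → ∃ r : Kˣ, ord v r = 0 ∧ One1 w (z * (inc K L r)⁻¹)) (x : Kˣ) (b : Lˣ) :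
    Bk p k z v x (Nm K L b) = Bk p k (algebraMap K L z) w (inc K L x) b := by
  have hp0 : (p : ℤ) ≠ 0 := by exact_mod_cast hp.ne_zero
  have hw1 : ¬ Above p w := fun h => hv ((above_over hw p).1 h)
  have hz' := z_up (L := L) hz
  have hn1 : nm w = nm v ^ 1 := by rw [hn, pow_one]
  have hγ : H.γ ^ p = inc K L c := Units.ext H.hγ
  have hγe : ord w H.γ = ord v c := by
    have h5 := congrArg (ord w) hγ
    rw [ord_pow, he] at h5
    exact mul_left_cancel₀ hp0 h5
  have hcu : IsUnit ((ord v c : ℤ) : ZMod (p ^ k)) := by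
    have h1 : ¬ (p : ℤ) ∣ ord v c := by
      intro hd
      obtain ⟨π, hπ⟩ := exists_unif v
      have h2 := unram_case hp hζ H hv hd hw π
      rw [he, hπ, mul_one] at h2
      exact hp.one_lt.ne' (by exact_mod_cast h2)
    have h2 : IsCoprime (p : ℤ) (ord v c) := by
      rw [Int.isCoprime_iff_gcd_eq_one, Int.gcd_eq_natAbs, Int.natAbs_natCast,
        ← Nat.coprime_iff_gcd_eq_one, hp.coprime_iff_not_dvd]
      intro h3
      exact h1 (Int.natCast_dvd.2 h3)
    obtain ⟨a, a', ha⟩ := (h2.pow_left (m := k))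
    have h3 := congrArg (fun t : ℤ => (t : ZMod (p ^ k))) ha
    push_cast at h3
    have h4 : ((p : ZMod (p ^ k))) ^ k = 0 := by
      rw [← Nat.cast_pow]
      exact ZMod.natCast_self _
    rw [h4, mul_zero, zero_add] at h3
    exact IsUnit.of_mul_eq_one_right _ h3
  refine hom_eq (fun b => Bk p k z v x (Nm K L b))
    (fun b => Bk p k (algebraMap K L z) w (inc K L x) b) (ord w) ?_ ?_ ?_ ?_ (ord_mul w) (ord_zpow w)
    H.γ ?_ ?_ ?_ b
  · intro y y'
    simp only [map_mul]
    exact bk_mul_right hp hz v x _ _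
  · intro y y'
    exact bk_mul_right hp hz' w _ _ _
  · intro y n
    simp only [map_zpow]
    exact bk_zpow_right hp hz v x _ n
  · intro y n
    exact bk_zpow_right hp hz' w _ _ n
  · rw [hγe]
    exact hcu
  · -- the generator
    have hNγ : ∀ x : Kˣ, Bk p k z v x (Nm K L H.γ) = Bk p k z v x c := by
      intro x
      obtain ⟨r, hr1, hr2⟩ := kum_norm_γ hp hζ H (hp2.one)
      rw [hr2, bk_mul_right hp hz]
      have h1 : r ^ p = 1 ∨ r ^ p = -1 := by
        have h2 : (((r ^ p : Kˣ) : K)) ^ 2 = 1 := by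
          rw [← Units.val_pow_eq_pow_val, ← pow_mul, mul_comm, hr1, Units.val_one]
        rcases sq_eq_one_iff.1 h2 with h | h
        · exact Or.inl (Units.ext h)
        · exact Or.inr (Units.ext (by rw [h, Units.val_neg, Units.val_one]))
      have h0 : ord v (-1 : Kˣ) = 0 := by
        rw [ord_eq_zero_iff, Units.val_neg, Units.val_one, Valuation.map_neg, map_one]
      rcases h1 with h1 | h1
      · rw [h1]
        have h := bk_mul_right hp hz v x 1 1
        rw [mul_one] at h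
        rw [(left_eq_add.1 h), add_zero]
      · rw [h1, bk_unit' hp hz hv h0, N.lq_neg hp hp2 hz hv, mul_zero, neg_zero, add_zero]
    rw [hNγ]
    refine hom_eq (fun x => Bk p k z v x c)
      (fun x => Bk p k (algebraMap K L z) w (inc K L x) H.γ) (ord v) ?_ ?_ ?_ ?_ (ord_mul v) (ord_zpow v)
      c hcu ?_ ?_ x
    · intro y y'
      exact bk_mul_left hp hz v _ _ _
    · intro y y'
      simp only [map_mul]
      exact bk_mul_left hp hz' w _ _ _
    · intro y n
      exact bk_zpow_left hp hz v _ _ n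
    · intro y n
      simp only [map_zpow]
      exact bk_zpow_left hp hz' w _ _ n
    · rw [bk_self hp hz, ← hγ, ← zpow_natCast, bk_zpow_left hp hz', bk_self hp hz', mul_zero]
    · intro t ht
      have ht' : ord w (inc K L t) = 0 := by rw [he, ht, mul_zero]
      rw [bk_unit hp hz hv ht, bk_unit hp hz' hw1 ht', hγe, lq_up hp hz hv hw hn1 ht, Nat.cast_one,
        one_mul]
  · -- units
    intro u hu
    obtain ⟨r, hr0, hr1⟩ := hr u hu
    have hone : ∀ (i : ℕ), One1 w (au (H.σ ^ i) (u * (inc K L r)⁻¹)) := by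
      intro i
      induction i with
      | zero => exact hr1
      | succ i ih =>
        have h1 : au (H.σ ^ (i + 1)) (u * (inc K L r)⁻¹) = au H.σ (au (H.σ ^ i) (u * (inc K L r)⁻¹)) := by
          rw [pow_succ']
          rfl
        rw [h1]
        exact (nonsplit_one1 hp hζ H hg hw _).2 ih
    have h6 : One1 v (Nm K L (u * (inc K L r)⁻¹)) := by
      rw [← one1_over hw, kum_norm hp hζ H]
      have h7 : ∀ s : Finset ℕ, One1 w (∏ i ∈ s, au (H.σ ^ i) (u * (inc K L r)⁻¹)) := by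
        intro s
        induction s using Finset.induction_on with
        | empty =>
          rw [Finset.prod_empty]
          exact one1_one w
        | insert a s ha ih =>
          rw [Finset.prod_insert ha]
          exact one1_mul (hone a) ih
      exact h7 _
    have h8 : u = inc K L r * (u * (inc K L r)⁻¹) := by
      rw [mul_comm, inv_mul_cancel_right]
    have hr' : ord w (inc K L r) = 0 := by rw [he, hr0, mul_zero]
    have e1 : Bk p k z v x (Nm K L u) = p * Bk p k z v x r := by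
      conv_lhs => rw [h8]
      rw [map_mul, bk_mul_right hp hz, bk_one1 hp hz x h6, add_zero, kum_norm_inc hp hζ H,
        ← zpow_natCast, bk_zpow_right hp hz, Int.cast_natCast]
    have e2 : Bk p k (algebraMap K L z) w (inc K L x) u =
        Bk p k (algebraMap K L z) w (inc K L x) (inc K L r) := by
      conv_lhs => rw [h8]
      rw [bk_mul_right hp hz', bk_one1 hp hz' _ hr1, add_zero]
    rw [e1, e2, bk_unit' hp hz hv hr0, bk_unit' hp hz' hw1 hr', he, lq_up hp hz hv hw hn1 hr0]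
    push_cast
    ring

end main

theorem ncl {K : Type} [Field K] [NumberField K] {L : Type} [Field L] [NumberField L]
    [Algebra K L] {p k : ℕ} (hp : p.Prime) (hp2 : MM p k K) {ζ : K} (hζ : IsPrimitiveRoot ζ p) {c : Kˣ}
    (H : Kum p K ζ c L) {z : K} (hz : IsPrimitiveRoot z (p ^ k)) {v : Pl K} (hv : ¬ Above p v)
    (x : Kˣ) (b : Lˣ) :
    Bk p k z v x (Nm K L b) = ∑ᶠ w ∈ {w : Pl L | Over w v}, Bk p k (algebraMap K L z) w (inc K L x) b := by
  rcases card_over hp hζ H v with hg | hg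
  · obtain ⟨w, hw⟩ := exists_over (L := L) v
    rw [one_sum hw hg]
    rcases nonsplit_case hp hζ H hg hw with ⟨h1, h2, h3⟩ | ⟨h1, h2⟩
    · exact ncl_ram hp hp2 hζ H hz hv hg hw h1 h2 h3 x b
    · exact ncl_inert hp hζ H hz hv hg hw h1 h2 x b
  · exact ncl_split hp hζ H hz hv hg x b

end H57.RQ.N
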