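import Pool.Agent.H57.RN.Def
import Pool.Agent.H57.RN.Loc
import Pool.Agent.H57.RQ.Lin
import Pool.Agent.H57.RN.Kil

/-!
# [H57 RN LIN] (all primes; copy of H57/RQ) weights for one `x`, 80-130 lines. File Pool/Agent/H57/RQ/Lin.lean

* `lin_ext`: `A` a commutative group, `f v : A →* Multiplicative (ZMod p)` written additively (`f v (a b) = f v a + f v b`) with `f · a` of finite support, `g` additive with `g a = 0` if all `f v a = 0`: there is
  `t` with `g a = ∑ᶠ t v f v a`. Proof: the image of `a ↦ (f v a)_v` in `Pl K →₀ ZMod p` is a subspace `W` (a subgroup closed under natural multiples), `g` induces a linear map `W → ZMod p`, extend it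
  (`LinearMap.exists_extend`), `t v` = value at `Finsupp.single v 1`.
* `lin`: for `x` with `Pk p (k+1) x` there is `t` with `Sk p (k+1) z x a = em (∑ᶠ t v b1_v(x, a))` for all `a`: `g a` = the `s` of `sk_em` (unique: `em_inj`), `kil`.
-/

set_option autoImplicit false

open scoped NumberField
open IsDedekindDomain
open scoped Classical

noncomputable section

namespace H57.RQ.N

open H63.MA

private theorem lin_one {p : ℕ} {A V : Type} [CommGroup A] (f : V → A → ZMod p)
    (hf : ∀ v a b, f v (a * b) = f v a + f v b) (v : V) : f v 1 = 0 := by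
  have h := hf v 1 1
  rw [mul_one] at h
  exact left_eq_add.1 h

private theorem lin_inv {p : ℕ} {A V : Type} [CommGroup A] (f : V → A → ZMod p)
    (hf : ∀ v a b, f v (a * b) = f v a + f v b) (v : V) (a : A) : f v a⁻¹ = -f v a := by
  have h := hf v a a⁻¹
  rw [mul_inv_cancel, lin_one f hf] at h
  exact (neg_eq_of_add_eq_zero_right h.symm).symm

private theorem lin_mul {K : Type} [Field K] [NumberField K] {p : ℕ} {ζ : K} (hp : p.Prime)
    (hζ : IsPrimitiveRoot ζ p) (x : Kˣ) (v : Pl K) (a a' : Kˣ) :
    b1 p ζ v x (a * a') = b1 p ζ v x a + b1 p ζ v x a' := by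
  unfold b1
  split_ifs with h
  · rw [add_zero]
  · exact B_mul_right hp hζ h x a a'

theorem lin {K : Type} [Field K] [NumberField K] {p k : ℕ} (hp : p.Prime)
    (hp2 : MM p (k + 1) K) (hR : Rk p k) {z : K} (hz : IsPrimitiveRoot z (p ^ (k + 1))) {x : Kˣ} (hx : Pk p (k + 1) x) :
    ∃ t : Pl K → ZMod p, ∀ a : Kˣ, Sk p (k + 1) z x a = em p k (∑ᶠ v, t v * b1 p (z ^ p ^ k) v x a) := by
  have hζ : IsPrimitiveRoot (z ^ p ^ k) p := hz.pow (pow_pos hp.pos _) (pow_succ p k)
  choose g hg using fun a : Kˣ => sk_em hp hp2 hR hz hx a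
  have hsub : ∀ s t : ZMod p, em p k s = em p k t → s = t := by
    intro s t h
    have h1 := em_add (k := k) hp (s - t) t
    rw [sub_add_cancel, h] at h1
    exact sub_eq_zero.1 (em_inj hp (right_eq_add.1 h1))
  obtain ⟨t, ht⟩ := lin_ext hp (fun v a => b1 p (z ^ p ^ k) v x a) (lin_mul hp hζ x)
    (by
      intro a
      refine (finite_B hp hζ x a).subset fun v hv => ?_
      rw [Set.mem_ofPred_eq] at hv ⊢
      unfold b1 at hv
      split_ifs at hv with h
      · exact absurd rfl hv
      · exact ⟨h, hv⟩)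
    g
    (by
      intro a b
      apply hsub
      rw [← hg, em_add hp, ← hg, ← hg]
      exact sk_mul_right hp hz x a b)
    (by
      intro a ha
      apply em_inj hp (k := k)
      rw [← hg]
      exact kil hp hp2 hR hz hx ha)
  exact ⟨t, fun a => by rw [hg a, ht a]⟩

end H57.RQ.N
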