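import Pool.Agent.H57.RN.Def
import Pool.Agent.H57.RN.Loc
import Pool.Agent.H57.RQ.Col
import Pool.Agent.H57.RN.Lin
import Pool.Agent.H63.MA.Uni

/-!
# [H57 RN COL] (all primes; copy of H57/RQ) families vanishing where `x` and `x'` split, comparison of the weights at two primes, 200-280 lines. File Pool/Agent/H57/RQ/Col.lean

* `Ro p`: the law of order `p`.
* `fam_b1`: `b1 p ζ · x ·` is a family (`IsFam`), and so are multiples by weights with sum `0` (`fam_w`).
* `col`: as `rel_col` (H63/MA/Uni): `γ, b1 x, b1 x'` vanish where both split; if they were independent, `den_fam` with `m = 3` contradicts `pz_spl2`. So `a γ + a' b1 x + a'' b1 x' = 0`, and `a ≠ 0`: a relation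
  `a' b1 x + a'' b1 x' = 0` would make `x ^ a' x' ^ a''` split everywhere, so a `p`-th power (`pz_spl`, `uni_contra`), contradiction to `Ind2`.
* `kap_two`: `x, x'` with weights `t, t'`, `b1_v(x, x') ≠ 0`, `b1_v'(x, x') ≠ 0`: `t v - t v' = t' v - t' v'`. `Ind2`: if `x ^ i x' ^ j = y ^ p` then `i b1_v(x, ·) + j b1_v(x', ·) = 0`, evaluate at `x'` and
  `x`. Weights `t''` for `x x'` (`lin`); `γ = t'' b1(x x') - t b1(x) - t' b1(x')` has sum `0` (`sk_mul_left`, `em_inj`), `col`: `γ = s b1 x + s' b1 x'`; at `v`: `(t'' - t - s) b1(x) + (t'' - t' - s') b1(x') = 0`,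
  evaluate at `x'` and `x`: `t'' v - t v = s`, `t'' v - t' v = s'`; the same at `v'`.
* `kap_one`: the same for `x, x'` not split at `v` and at `v'` (`b1_v(x, ·) ≠ 0`, ...): take `y_v ∈ K^*` with `b1_v(x, y_v) ≠ 0`, `b1_v(x', y_v) ≠ 0` (one of `y₁, y₂, y₁ y₂`), the same at `v'`, `wap` (with `n = k + 2`,
  `dp_pk`, `bk_one1`/the analogue for `b1`), and `kap_two` twice.
-/

set_option autoImplicit false

open scoped NumberField
open IsDedekindDomain
open scoped Classical

noncomputable section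

namespace H57.RQ.N

open H63.MA

section b

variable {K : Type} [Field K] [NumberField K] {p : ℕ} {ζ : K}

theorem col_fam (hp : p.Prime) (hm : MOne p K) (hR : Ro p) (hζ : IsPrimitiveRoot ζ p) {x : Kˣ} (hx : Pk p 1 x) :
    IsFam p fun v a => b1 p ζ v x a := by
  have h1 := fam_w hp hζ (fun _ => 1) x (fun a => by
    simp only [one_mul]
    exact hR K ζ hζ hm x hx a)
  simpa only [one_mul] using h1

theorem col (hp : p.Prime) (hm : MOne p K) (hR : Ro p) (hζ : IsPrimitiveRoot ζ p) {x x' : Kˣ} (hx : Pk p 1 x)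
    (hx' : Pk p 1 x') (hI : Ind2 p x x') {γ : Pl K → Kˣ → ZMod p} (hγ : IsFam p γ)
    (h0 : ∀ v, ¬ Above p v → Spl p ζ v x → Spl p ζ v x' → ∀ a, γ v a = 0) :
    ∃ s s' : ZMod p, ∀ v a, γ v a = s * b1 p ζ v x a + s' * b1 p ζ v x' a := by
  have : Fact p.Prime := ⟨hp⟩
  set β : Fin 3 → Pl K → Kˣ → ZMod p :=
    ![γ, fun v a => b1 p ζ v x a, fun v a => b1 p ζ v x' a] with hβdef
  have hβ : ∀ i, IsFam p (β i) := by
    intro i
    fin_cases i
    · exact hγ
    · exact col_fam hp hm hR hζ hx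
    · exact col_fam hp hm hR hζ hx'
  by_cases hind : ∀ a : Fin 3 → ZMod p, (∀ v y, ∑ i, a i * β i v y = 0) → a = 0
  · exfalso
    obtain ⟨C, hC⟩ := den_fam hp β hβ hind
    obtain ⟨C', hC'⟩ := pz_spl2 hp hζ hI
    have hp1 : (1 : ℝ) < p := by exact_mod_cast hp.one_lt
    refine uni_contra (n := (p : ℝ) - 1) (by linarith) (C + p * C') fun s hs hs2 => ?_
    have h1 := hC s hs hs2
    have h2 := (abs_le.1 (hC' s hs hs2)).1
    have h3 : PZ {v : Pl K | ¬ Above p v ∧ Spl p ζ v x ∧ Spl p ζ v x'} s ≤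
        PZ {v : Pl K | ∀ i, ∀ y, β i v y = 0} s := by
      refine pz_mono ?_ hs
      rintro v ⟨hva, hv, hv'⟩ i y
      fin_cases i
      · exact h0 v hva hv hv' y
      · show b1 p ζ v x y = 0
        rw [col_of_not hva, hv y]
      · show b1 p ζ v x' y = 0
        rw [col_of_not hva, hv' y]
    have hp0 : (0 : ℝ) < p := by linarith
    have h4 := mul_le_mul_of_nonneg_left h3 (by positivity : (0 : ℝ) ≤ (p : ℝ) ^ 3)
    have h5 : (p : ℝ) * (Real.log (1 / (s - 1)) - C') ≤
        p * ((p : ℝ) ^ 2 * PZ {v : Pl K | ¬ Above p v ∧ Spl p ζ v x ∧ Spl p ζ v x'} s) :=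
      mul_le_mul_of_nonneg_left (by linarith) hp0.le
    have h6 : (p : ℝ) ^ 3 * PZ {v : Pl K | ¬ Above p v ∧ Spl p ζ v x ∧ Spl p ζ v x'} s =
        p * ((p : ℝ) ^ 2 * PZ {v : Pl K | ¬ Above p v ∧ Spl p ζ v x ∧ Spl p ζ v x'} s) := by ring
    nlinarith
  · push Not at hind
    obtain ⟨a, ha, ha0⟩ := hind
    have hsum : ∀ v y, a 0 * γ v y + a 1 * b1 p ζ v x y + a 2 * b1 p ζ v x' y = 0 := by
      intro v y
      have h1 := ha v y
      rw [Fin.sum_univ_three] at h1
      exact h1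
    have ha2 : a 0 ≠ 0 := by
      intro h2
      have h3 := col_indep hp hζ hI (a 1) (a 2) (fun v y => by
        have h4 := hsum v y
        rwa [h2, zero_mul, zero_add] at h4)
      apply ha0
      funext i
      fin_cases i
      · exact h2
      · exact h3.1
      · exact h3.2
    refine ⟨-(a 0)⁻¹ * a 1, -(a 0)⁻¹ * a 2, fun v y => ?_⟩
    have h1 := hsum v y
    have h2 : γ v y = (a 0)⁻¹ * (a 0 * γ v y) := by
      rw [← mul_assoc, inv_mul_cancel₀ ha2, one_mul]
    have h3 : a 0 * γ v y = -(a 1 * b1 p ζ v x y + a 2 * b1 p ζ v x' y) := by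
      rw [eq_neg_iff_add_eq_zero, ← add_assoc]
      exact h1
    rw [h2, h3]
    ring

end b

section kap

variable {K : Type} [Field K] [NumberField K] {p k : ℕ} {z : K}

theorem kap_two (hp : p.Prime) (hp2 : MM p (k + 1) K) (hO : Ro p) (hR : Rk p k)
    (hz : IsPrimitiveRoot z (p ^ (k + 1))) {x x' : Kˣ} (hx : Pk p (k + 1) x)
    (hx' : Pk p (k + 1) x') {t t' : Pl K → ZMod p}
    (ht : ∀ a : Kˣ, Sk p (k + 1) z x a = em p k (∑ᶠ v, t v * b1 p (z ^ p ^ k) v x a))
    (ht' : ∀ a : Kˣ, Sk p (k + 1) z x' a = em p k (∑ᶠ v, t' v * b1 p (z ^ p ^ k) v x' a))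
    {v v' : Pl K} (hv : b1 p (z ^ p ^ k) v x x' ≠ 0) (hv' : b1 p (z ^ p ^ k) v' x x' ≠ 0) :
    t v - t v' = t' v - t' v' := by
  have : Fact p.Prime := ⟨hp⟩
  have hζ := col_zeta hp hz
  obtain ⟨t'', ht''⟩ := lin hp hp2 hR hz (pk_mul hp hx hx')
  have hI := col_ind hp hζ hv
  have hfin : ∀ (s : Pl K → ZMod p) (y a : Kˣ),
      (Function.support fun v => s v * b1 p (z ^ p ^ k) v y a).Finite := by
    intro s y a
    refine (b1_fin hp hζ y a).subset fun w hw => ?_
    intro h0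
    apply hw
    change s w * b1 p (z ^ p ^ k) w y a = 0
    rw [h0, mul_zero]
  have hsum : ∀ a : Kˣ, ∑ᶠ v, t'' v * b1 p (z ^ p ^ k) v (x * x') a =
      ∑ᶠ v, t v * b1 p (z ^ p ^ k) v x a + ∑ᶠ v, t' v * b1 p (z ^ p ^ k) v x' a := by
    intro a
    have h1 := ht'' a
    rw [sk_mul_left hp hz, ht a, ht' a, ← em_add hp] at h1
    have h2 := em_add (k := k) hp (∑ᶠ v, t'' v * b1 p (z ^ p ^ k) v (x * x') a -
      (∑ᶠ v, t v * b1 p (z ^ p ^ k) v x a + ∑ᶠ v, t' v * b1 p (z ^ p ^ k) v x' a))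
      (∑ᶠ v, t v * b1 p (z ^ p ^ k) v x a + ∑ᶠ v, t' v * b1 p (z ^ p ^ k) v x' a)
    rw [sub_add_cancel, ← h1] at h2
    have h3 := em_inj hp (left_eq_add.1 (h2.trans (add_comm _ _)))
    exact sub_eq_zero.1 h3
  have hfam : IsFam p fun v a => t'' v * b1 p (z ^ p ^ k) v (x * x') a -
      (t v * b1 p (z ^ p ^ k) v x a + t' v * b1 p (z ^ p ^ k) v x' a) := by
    constructor
    · intro v a a'
      rw [b1_mul_right hp hζ, b1_mul_right hp hζ, b1_mul_right hp hζ]
      ring
    · intro v hv a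
      rw [col_of_above hv, col_of_above hv, col_of_above hv]
      ring
    · intro v a ha
      rw [b1_one1 hp hζ _ ha, b1_one1 hp hζ _ ha, b1_one1 hp hζ _ ha]
      ring
    · refine (((finite_ord x).union (finite_ord x')).union (finite_ord (x * x'))).subset
        fun v hv => ?_
      obtain ⟨a, ho, ha⟩ := hv
      by_contra hcon
      simp only [Set.mem_union, not_or] at hcon
      apply ha
      have e1 : ord v x = 0 := by
        by_contra h
        exact hcon.1.1 h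
      have e2 : ord v x' = 0 := by
        by_contra h
        exact hcon.1.2 h
      have e3 : ord v (x * x') = 0 := by
        by_contra h
        exact hcon.2 h
      rw [col_unram hp hζ e1 ho, col_unram hp hζ e2 ho, col_unram hp hζ e3 ho]
      ring
    · intro a
      rw [finsum_sub_distrib (hfin _ _ _)
        (((hfin t x a).union (hfin t' x' a)).subset (Function.support_add _ _)),
        finsum_add_distrib (hfin _ _ _) (hfin _ _ _), hsum a, sub_self]
  obtain ⟨s, s', hs⟩ := col hp hp2.one hO hζ (col_pk hp k hx) (col_pk hp k hx') hI hfam (by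
    intro w hw h1 h2 a
    rw [b1_mul_left hp hζ, col_of_not hw, col_of_not hw, h1 a, h2 a]
    ring)
  have key : ∀ w, b1 p (z ^ p ^ k) w x x' ≠ 0 → t w + s = t' w + s' := by
    intro w hw
    have h1 := hs w x'
    have h2 := hs w x
    rw [b1_mul_left hp hζ, col_self hp hζ] at h1 h2
    have hw' : b1 p (z ^ p ^ k) w x' x ≠ 0 := by
      rw [b1_symm hp hζ]
      exact neg_ne_zero.2 hw
    have h3 : (t'' w - t w - s) * b1 p (z ^ p ^ k) w x x' = 0 := by
      linear_combination h1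
    have h4 : (t'' w - t' w - s') * b1 p (z ^ p ^ k) w x' x = 0 := by
      linear_combination h2
    have h5 := (mul_eq_zero.1 h3).resolve_right hw
    have h6 := (mul_eq_zero.1 h4).resolve_right hw'
    linear_combination h6 - h5
  have k1 := key v hv
  have k2 := key v' hv'
  linear_combination k1 - k2

theorem kap_one (hp : p.Prime) (hp2 : MM p (k + 1) K) (hO : Ro p) (hR : Rk p k)
    (hz : IsPrimitiveRoot z (p ^ (k + 1))) {x x' : Kˣ} (hx : Pk p (k + 1) x)
    (hx' : Pk p (k + 1) x') {t t' : Pl K → ZMod p}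
    (ht : ∀ a : Kˣ, Sk p (k + 1) z x a = em p k (∑ᶠ v, t v * b1 p (z ^ p ^ k) v x a))
    (ht' : ∀ a : Kˣ, Sk p (k + 1) z x' a = em p k (∑ᶠ v, t' v * b1 p (z ^ p ^ k) v x' a))
    {v v' : Pl K} (h1 : ∃ a, b1 p (z ^ p ^ k) v x a ≠ 0) (h2 : ∃ a, b1 p (z ^ p ^ k) v' x a ≠ 0)
    (h3 : ∃ a, b1 p (z ^ p ^ k) v x' a ≠ 0) (h4 : ∃ a, b1 p (z ^ p ^ k) v' x' a ≠ 0) :
    t v - t v' = t' v - t' v' := by
  have hζ := col_zeta hp hz
  by_cases hvv : v = v'
  · rw [hvv, sub_self, sub_self]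
  have hav : ¬ Above p v := by
    intro h
    obtain ⟨a, ha⟩ := h1
    exact ha (col_of_above h x a)
  have hav' : ¬ Above p v' := by
    intro h
    obtain ⟨a, ha⟩ := h2
    exact ha (col_of_above h x a)
  obtain ⟨y, hy1, hy2⟩ := col_both hp hζ h1 h3
  obtain ⟨y', hy1', hy2'⟩ := col_both hp hζ h2 h4
  obtain ⟨w, hw, hw2⟩ := wap hp (k + 2) {v, v'} (by
    intro u hu
    rcases Finset.mem_insert.1 hu with rfl | hu
    · exact hav
    · rw [Finset.mem_singleton.1 hu]
      exact hav') (fun u => if u = v then y else y')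
  have e1 := hw2 v (Finset.mem_insert_self _ _)
  have e2 := hw2 v' (Finset.mem_insert_of_mem (Finset.mem_singleton_self _))
  rw [if_pos rfl] at e1
  rw [if_neg (Ne.symm hvv)] at e2
  have hval : ∀ (u : Pl K) (c : Kˣ) (q : Kˣ), One1 u (w * q⁻¹) →
      b1 p (z ^ p ^ k) u c w = b1 p (z ^ p ^ k) u c q := by
    intro u c q hq
    have h5 := b1_mul_right hp hζ u c (w * q⁻¹) q
    rw [inv_mul_cancel_right, b1_one1 hp hζ c hq, zero_add] at h5
    exact h5
  have hwk : Pk p (k + 1) w := dpn hp hw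
  obtain ⟨tw, htw⟩ := lin hp hp2 hR hz hwk
  have r1 := kap_two hp hp2 hO hR hz hx hwk ht htw (v := v) (v' := v')
    (by rw [hval v x y e1]; exact hy1) (by rw [hval v' x y' e2]; exact hy1')
  have r2 := kap_two hp hp2 hO hR hz hx' hwk ht' htw (v := v) (v' := v')
    (by rw [hval v x' y e1]; exact hy2) (by rw [hval v' x' y' e2]; exact hy2')
  rw [r1, r2]

end kap

end H57.RQ.N
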