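import Pool.Agent.H57.RN.Def
import Pool.Agent.H57.RN.Loc
import Pool.Agent.H57.RQ.Eta
import Pool.Agent.H57.RN.Kap

/-!
# [H57 RN ETA] (all primes; copy of H57/RQ) the explicit law for roots of unity, 200-300 lines. File Pool/Agent/H57/RQ/Eta.lean

`Et p k z M η`.
* `et_ex`: there are `M`, `η` with `Et p k z M η` (`M` maximal such that `K` contains a primitive `p ^ M`-th root of unity; `φ (p ^ M) ≤ [K : ℚ]`).
* `et_lg`: `lg (p ^ (k+1)) z v η = ((nm v - 1) / p ^ M : ℕ)` for `v ∤ p`: `η ^ ((N v - 1) / p ^ (k+1)) = (η ^ (p ^ (M-k-1))) ^ ((N v - 1) / p ^ M) = z ^ ..` exactly (`sq_dvd` for the order `p ^ M`, `lq_iff`).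
  `et_lg1`: the same for `lg p (z ^ p ^ k) v η`.
* `eta_law`: `a ∈ 𝓞 K`, `a ≡ 1` modulo `p ^ (M + k + 1)`, `x = a`: `Sk p (k+1) z x η = 0`. `Bk_v(x, η) = - ord_v x lg_v η` (`bk_symm`, `bk_unit`). `ψ(n) = (n - 1) / p ^ M` mod `p ^ (k+1)` is additive on the `n ≡ 1` mod `p ^ M`
  (`(n-1)(n'-1)` is divisible by `p ^ (2M)`), `∏ N v ^ ord_v x = |N x|` (see the proof of `nz_*` in H63/MA/NormZ.lean, where the norm is shown to be positive and `≡ 1`), `N x ≡ 1` mod `p ^ (M+k+1)`, `ψ(N x) = 0`.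
* `eta`: `KP p k z κ`, `lg_v η ≠ 0`, `lg_v' η ≠ 0` imply `κ v = κ v'`. `f v = κ v lg_v η`, `g v = lg_v η` for `v ∤ p`, `0` for `v ∣ p`; both are `IsRay p (p ^ N)`, `N = M + 2k + 3` (`eta_law`, `dp_pk`, `KP`, `em_inj`; `b1_v(x, η) = - ord_v x lg_v η`; for `g`:
  reduce `eta_law` modulo `p` (`bk_b1`)). Both vanish where `Spl v η`. As in the proof of the claim in NormZ: if `f, g` were independent, `den_ray` with `m = 2` would contradict `pz_spl` for `η`. So `i f + j g = 0`, `(i,j) ≠ 0`,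
  `g v ≠ 0`, so `i ≠ 0` and `κ v = - j / i = κ v'`.
-/

set_option autoImplicit false

open scoped NumberField
open IsDedekindDomain
open scoped Classical

noncomputable section

namespace H57.RQ.N

open H63.MA

variable {K : Type} [Field K] [NumberField K] {p k : ℕ} {z : K}

/-! ### norms (copied from H63/MA/NormZ) -/

private theorem ea_ord (v : Pl K) (x : Kˣ) (a : 𝓞 K) (ha : a ≠ 0)
    (hx : (x : K) = algebraMap (𝓞 K) K a) :
    ord v x = ((Associates.mk v.asIdeal).count (Associates.mk (Ideal.span {a})).factors : ℤ) := by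
  unfold ord
  rw [hx, HeightOneSpectrum.valuation_of_algebraMap, v.intValuation_if_neg ha]
  simp

private theorem ea_absNorm (x : Kˣ) (a : 𝓞 K) (ha : a ≠ 0)
    (hx : (x : K) = algebraMap (𝓞 K) K a) (T : Finset (Pl K)) (hT : ∀ v, ord v x ≠ 0 → v ∈ T) :
    Ideal.absNorm (Ideal.span {a}) = ∏ v ∈ T, nm v ^ (ord v x).toNat := by
  have hI : Ideal.span {a} ≠ 0 := by
    rw [Ne, Ideal.zero_eq_bot, Ideal.span_singleton_eq_bot]
    exact ha
  have hpow : ∀ v : Pl K, v.maxPowDividing (Ideal.span {a}) = v.asIdeal ^ (ord v x).toNat := by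
    intro v
    unfold HeightOneSpectrum.maxPowDividing
    rw [ea_ord v x a ha hx]
    simp
  have h1 := Ideal.finprod_heightOneSpectrum_factorization hI
  rw [finprod_eq_prod_of_mulSupport_subset (s := T) _ (by
    intro v hv
    rw [Function.mem_mulSupport, hpow] at hv
    refine hT v fun h0 => hv ?_
    rw [h0]
    simp)] at h1
  rw [← h1, map_prod]
  refine Finset.prod_congr rfl fun v _ => ?_
  rw [hpow, map_pow]
  rfl

private theorem ea_norm_mod (q : ℕ) (a : 𝓞 K) (ha : a - 1 ∈ Ideal.span {(q : 𝓞 K)}) :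
    ((Algebra.norm ℤ a : ℤ) : ZMod q) = 1 := by
  obtain ⟨c, hc⟩ := Ideal.mem_span_singleton'.1 ha
  have ha' : a = 1 + (q : ℤ) • c := by
    rw [zsmul_eq_mul]
    push_cast
    rw [mul_comm, hc]
    ring
  set b := NumberField.RingOfIntegers.basis K
  rw [Algebra.norm_eq_matrix_det b a, ha', map_add, map_one, map_zsmul]
  have h2 : ((Matrix.det (1 + (q : ℤ) • Algebra.leftMulMatrix b c) : ℤ) : ZMod q) =
      Matrix.det ((1 + (q : ℤ) • Algebra.leftMulMatrix b c).map (Int.castRingHom (ZMod q))) := by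
    rw [← RingHom.mapMatrix_apply, ← RingHom.map_det]
    rfl
  rw [h2]
  have h3 : (1 + (q : ℤ) • Algebra.leftMulMatrix b c).map (Int.castRingHom (ZMod q)) = 1 := by
    rw [← RingHom.mapMatrix_apply, map_add, map_one, map_zsmul]
    ext i j
    simp
  rw [h3, Matrix.det_one]

/-! ### the function `(n - 1) / p ^ M` -/

private theorem ea_psi {q d M : ℕ} (hd : q ∣ d) (hd0 : 0 < d) {ι : Type} (T : Finset ι)
    (n : ι → ℕ) (hn0 : ∀ i ∈ T, 0 < n i) (hn : ∀ i ∈ T, d ∣ n i - 1) :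
    0 < ∏ i ∈ T, n i ∧ d ∣ (∏ i ∈ T, n i) - 1 ∧
      ((((∏ i ∈ T, n i) - 1) / d : ℕ) : ZMod q) = ∑ i ∈ T, (((n i - 1) / d : ℕ) : ZMod q) := by
  induction T using Finset.induction_on with
  | empty => simp
  | insert a s ha ih =>
    obtain ⟨h1, h2, h3⟩ := ih (fun i hi => hn0 i (Finset.mem_insert_of_mem hi))
      fun i hi => hn i (Finset.mem_insert_of_mem hi)
    have h4 := hn0 a (Finset.mem_insert_self _ _)
    have h5 := hn a (Finset.mem_insert_self _ _)
    rw [Finset.prod_insert ha, Finset.sum_insert ha, ← h3]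
    obtain ⟨c, hc⟩ := h2
    obtain ⟨c', hc'⟩ := h5
    obtain ⟨e, rfl⟩ := hd
    have e1 : (∏ i ∈ s, n i) = q * e * c + 1 := by omega
    have e2 : n a = q * e * c' + 1 := by omega
    have e3 : n a * (∏ i ∈ s, n i) - 1 = q * e * (c + c' + q * e * c * c') := by
      rw [e1, e2]
      have : (q * e * c' + 1) * (q * e * c + 1) = q * e * (c + c' + q * e * c * c') + 1 := by ring
      rw [this]
      omega
    refine ⟨Nat.mul_pos h4 h1, ?_, ?_⟩
    · rw [e3]
      exact dvd_mul_right _ _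
    · rw [e3, hc, hc', Nat.mul_div_cancel_left _ hd0, Nat.mul_div_cancel_left _ hd0,
        Nat.mul_div_cancel_left _ hd0]
      push_cast
      rw [ZMod.natCast_self]
      ring

private theorem ea_psi_pow {q d : ℕ} (hd : q ∣ d) (hd0 : 0 < d) {n : ℕ} (hn0 : 0 < n)
    (hn : d ∣ n - 1) (m : ℕ) :
    0 < n ^ m ∧ d ∣ n ^ m - 1 ∧
      (((n ^ m - 1) / d : ℕ) : ZMod q) = m * (((n - 1) / d : ℕ) : ZMod q) := by
  have h := ea_psi (M := 0) hd hd0 (Finset.range m) (fun _ => n) (fun _ _ => hn0) fun _ _ => hn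
  rw [Finset.prod_const, Finset.card_range, Finset.sum_const, Finset.card_range,
    nsmul_eq_mul] at h
  exact h

/-! ### roots of unity -/

private theorem ea_ord0 (hp : p.Prime) {M : ℕ} {η : Kˣ} (he : Et p k z M η) (v : Pl K) :
    ord v η = 0 :=
  (ord_eq_zero_iff v η).2 (kumc_root v (pow_ne_zero _ hp.ne_zero) he.prim.pow_eq_one)

private theorem ea_rs (hp : p.Prime) (hz : IsPrimitiveRoot z (p ^ (k + 1))) {M : ℕ} {η : Kˣ}
    (he : Et p k z M η) {v : Pl K} (hv : ¬ Above p v) : p ^ M ∣ nm v - 1 ∧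
      symb_rs v (η : K) ^ ((nm v - 1) / p ^ (k + 1)) = symb_rs v z ^ ((nm v - 1) / p ^ M) := by
  have h1 := sq_dvd hp he.prim hv
  refine ⟨h1, ?_⟩
  obtain ⟨c, hc⟩ := h1
  have hη1 : v.valuation K (η : K) ≤ 1 := ((ord_eq_zero_iff v η).1 (ea_ord0 hp he v)).le
  have e1 : p ^ M = p ^ (k + 1) * p ^ (M - (k + 1)) := by
    rw [← pow_add]
    congr 1
    have := he.le
    omega
  have e2 : (nm v - 1) / p ^ (k + 1) = p ^ (M - (k + 1)) * c := by
    rw [hc, e1, mul_assoc, Nat.mul_div_cancel_left _ (pow_pos hp.pos _)]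
  have e3 : (nm v - 1) / p ^ M = c := by
    rw [hc, Nat.mul_div_cancel_left _ (pow_pos hp.pos _)]
  rw [e2, e3, pow_mul, ← symb_rs_pow v hη1, he.pow]

private theorem ea_above_one1 {N : ℕ} (hN : 1 ≤ N) {x : Kˣ} {a : 𝓞 K}
    (hx : (x : K) = algebraMap (𝓞 K) K a) (ha : a - 1 ∈ Ideal.span {(p : 𝓞 K) ^ N})
    {v : Pl K} (hv : Above p v) : v.valuation K ((x : K) - 1) ≤ v.valuation K ((p : K) ^ N) := by
  obtain ⟨c, hc⟩ := Ideal.mem_span_singleton'.1 ha
  have h1 : (x : K) - 1 = algebraMap (𝓞 K) K c * (p : K) ^ N := by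
    have := congrArg (algebraMap (𝓞 K) K) hc
    rw [map_mul, map_pow, map_natCast, map_sub, map_one, ← hx] at this
    exact this.symm
  rw [h1, map_mul]
  calc v.valuation K (algebraMap (𝓞 K) K c) * v.valuation K ((p : K) ^ N)
      ≤ 1 * v.valuation K ((p : K) ^ N) := mul_le_mul' (v.valuation_le_one c) le_rfl
    _ = _ := one_mul _

theorem et_two (hp : p.Prime) (hm : MOne p K) {M : ℕ} {η : Kˣ} (he : Et p k z M η) :
    2 < p ^ M := by
  have h1 := he.le
  rcases hp.eq_two_or_odd' with h2 | h2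
  · subst h2
    have h3 : M ≠ 1 := by
      rintro rfl
      obtain ⟨i, hi⟩ := hm
      have h4 : (η : K) = -1 := by
        have h5 := he.prim
        rw [pow_one] at h5
        exact h5.eq_neg_one_of_two_right
      have hi0 : i ≠ 0 := by
        rintro rfl
        rw [zero_pow two_ne_zero] at hi
        exact neg_ne_zero.2 one_ne_zero hi.symm
      apply he.npow
      refine ⟨Units.mk0 i hi0, Units.ext ?_⟩
      rw [Units.val_pow_eq_pow_val, Units.val_mk0, hi, h4]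
    calc 2 < 2 ^ 2 := by norm_num
      _ ≤ 2 ^ M := Nat.pow_le_pow_right (by norm_num) (by omega)
  · have h3 : 2 < p := by
      have := hp.two_le
      rcases h2 with ⟨m, hm'⟩
      omega
    calc 2 < p ^ 1 := by rw [pow_one]; exact h3
      _ ≤ p ^ M := Nat.pow_le_pow_right hp.pos (by omega)

theorem eta_law (hp : p.Prime) (hp2 : MM p (k + 1) K) (hz : IsPrimitiveRoot z (p ^ (k + 1))) {M : ℕ}
    {η : Kˣ} (he : Et p k z M η) {x : Kˣ} {a : 𝓞 K} (hx : (x : K) = algebraMap (𝓞 K) K a)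
    (ha : a - 1 ∈ Ideal.span {(p : 𝓞 K) ^ (M + k + 1)}) : Sk p (k + 1) z x η = 0 := by
  have ha0 : a ≠ 0 := by
    rintro rfl
    rw [map_zero] at hx
    exact x.ne_zero hx
  have hdM : p ^ (k + 1) ∣ p ^ M := pow_dvd_pow p he.le
  have hM0 : 0 < p ^ M := pow_pos hp.pos M
  have hpO : ∀ v, Above p v → ord v x = 0 := by
    intro v hv
    refine ord_of_one1 (lt_of_le_of_lt (ea_above_one1 (by omega) hx ha hv) ?_)
    rw [map_pow]
    exact pow_lt_one₀ zero_le' ((above_iff p v).1 hv) (by omega)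
  obtain ⟨T, hT⟩ : ∃ T, T = (finite_ord x).toFinset := ⟨_, rfl⟩
  have hTm : ∀ v, v ∈ T ↔ ord v x ≠ 0 := fun v => by rw [hT]; exact (finite_ord x).mem_toFinset
  have hTp : ∀ v ∈ T, ¬ Above p v := fun v hv h => (hTm v).1 hv (hpO v h)
  have h0 : ∀ v, 0 ≤ ord v x := fun v => by
    rw [ea_ord v x a ha0 hx]
    exact Nat.cast_nonneg _
  have h1 := ea_absNorm x a ha0 hx T (fun v hv => (hTm v).2 hv)
  -- the values of the symbol
  have hB : ∀ v ∈ T, Bk p (k + 1) z v x η =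
      -((ord v x : ZMod (p ^ (k + 1))) * (((nm v - 1) / p ^ M : ℕ) : ZMod (p ^ (k + 1)))) := by
    intro v hv
    rw [bk_symm hp hz, bk_unit hp hz (hTp v hv) (ea_ord0 hp he v), et_lg hp hz he (hTp v hv)]
  unfold Sk
  rw [finsum_eq_sum_of_support_subset (s := T) _ (by
    intro v hv
    rw [Function.mem_support] at hv
    refine (hTm v).2 fun h => hv ?_
    by_cases hvp : Above p v
    · unfold Bk
      rw [if_pos hvp]
    · rw [bk_symm hp hz, bk_unit hp hz hvp (ea_ord0 hp he v), h, Int.cast_zero, zero_mul,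
        neg_zero]), Finset.sum_congr rfl hB, Finset.sum_neg_distrib, neg_eq_zero]
  have hn : ∀ v ∈ T, 0 < nm v ∧ p ^ M ∣ nm v - 1 := fun v hv =>
    ⟨(one_lt_nm v).le.trans' Nat.zero_lt_one, (et_lg1 hp hz he (hTp v hv)).1⟩
  have h2 : ∀ v ∈ T, 0 < nm v ^ (ord v x).toNat ∧ p ^ M ∣ nm v ^ (ord v x).toNat - 1 ∧
      (((nm v ^ (ord v x).toNat - 1) / p ^ M : ℕ) : ZMod (p ^ (k + 1))) =
        (ord v x : ZMod (p ^ (k + 1))) * (((nm v - 1) / p ^ M : ℕ) : ZMod (p ^ (k + 1))) := by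
    intro v hv
    obtain ⟨g1, g2, g3⟩ := ea_psi_pow hdM hM0 (hn v hv).1 (hn v hv).2 (ord v x).toNat
    refine ⟨g1, g2, ?_⟩
    rw [g3]
    congr 1
    have : ((ord v x).toNat : ℤ) = ord v x := Int.toNat_of_nonneg (h0 v)
    rw [← this]
    simp
  obtain ⟨g1, g2, g3⟩ := ea_psi (M := M) hdM hM0 T (fun v => nm v ^ (ord v x).toNat)
    (fun v hv => (h2 v hv).1) (fun v hv => (h2 v hv).2.1)
  rw [← Finset.sum_congr rfl fun v hv => (h2 v hv).2.2, ← g3]
  rw [← h1, Ideal.absNorm_span_singleton] at g1 g2 ⊢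
  -- the norm is `1` modulo `p ^ (M + k + 1)`
  have h5 := ea_norm_mod (p ^ (M + k + 1)) a (by push_cast; exact ha)
  have h6 : (((Algebra.norm ℤ a).natAbs : ℕ) : ZMod (p ^ (M + k + 1))) = 1 := by
    rcases Int.natAbs_eq (Algebra.norm ℤ a) with h | h
    · rw [← h5]
      conv_rhs => rw [h]
      simp
    · exfalso
      have h7 : (((Algebra.norm ℤ a).natAbs : ℕ) : ZMod (p ^ (M + k + 1))) = -1 := by
        rw [← h5]
        conv_rhs => rw [h]
        simp
      have hdp : p ^ M ∣ p ^ (M + k + 1) := pow_dvd_pow p (by omega)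
      have h8 := congrArg (ZMod.castHom hdp (ZMod (p ^ M))) h7
      rw [map_natCast, map_neg, map_one] at h8
      obtain ⟨c, hc⟩ := g2
      have h10 : (Algebra.norm ℤ a).natAbs = p ^ M * c + 1 := by omega
      rw [h10] at h8
      push_cast at h8
      have h12 : (p : ZMod (p ^ M)) ^ M = 0 := by
        have := ZMod.natCast_self (p ^ M)
        push_cast at this
        exact this
      rw [h12, zero_mul, zero_add] at h8
      haveI : Fact (2 < p ^ M) := ⟨et_two hp hp2.one he⟩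
      exact ZMod.neg_one_ne_one h8.symm
  have h11 : p ^ (M + k + 1) ∣ (Algebra.norm ℤ a).natAbs - 1 := by
    rw [← ZMod.natCast_eq_zero_iff, Nat.cast_sub (by omega), h6, Nat.cast_one, sub_self]
  obtain ⟨c, hc⟩ := h11
  rw [hc]
  have e1 : p ^ (M + k + 1) * c = p ^ M * (p ^ (k + 1) * c) := by
    rw [← mul_assoc, ← pow_add, add_assoc]
  rw [e1, Nat.mul_div_cancel_left _ hM0]
  push_cast
  have e2 : ((p : ZMod (p ^ (k + 1))) ^ (k + 1)) = 0 := by
    have := ZMod.natCast_self (p ^ (k + 1))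
    push_cast at this
    exact this
  rw [e2, zero_mul]

theorem eta (hp : p.Prime) (hp2 : MM p (k + 1) K) (hz : IsPrimitiveRoot z (p ^ (k + 1))) {M : ℕ}
    {η : Kˣ} (he : Et p k z M η) {κ : Pl K → ZMod p} (hκ : KP p k z κ) {v v' : Pl K}
    (hv : ¬ Above p v) (hv' : ¬ Above p v') (h : lg p (z ^ p ^ k) v η ≠ 0)
    (h' : lg p (z ^ p ^ k) v' η ≠ 0) : κ v = κ v' := by
  haveI : Fact p.Prime := ⟨hp⟩
  have hζ : IsPrimitiveRoot (z ^ p ^ k) p := hz.pow (pow_pos hp.pos _) (pow_succ p k)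
  obtain ⟨ζ, hζe⟩ : ∃ ζ, ζ = z ^ p ^ k := ⟨_, rfl⟩
  have hspl : ∀ v : Pl K, ¬ Above p v → Spl p ζ v η → lg p ζ v η = 0 := by
    intro v h1 h3
    obtain ⟨π, hπ⟩ := exists_unif v
    have h4 := h3 π
    rw [B_unit hp (hζe ▸ hζ) h1 (ea_ord0 hp he v), hπ, Int.cast_one, one_mul] at h4
    exact h4
  set f₁ : Pl K → ZMod p := fun v => if Above p v then 0 else κ v * lg p ζ v η with hf₁
  set f₂ : Pl K → ZMod p := fun v => if Above p v then 0 else lg p ζ v η with hf₂
  obtain ⟨N, hN⟩ : ∃ N, N = M + 2 * k + 3 := ⟨_, rfl⟩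
  set 𝔣 : Ideal (𝓞 K) := Ideal.span {(p : 𝓞 K) ^ N} with h𝔣
  have h𝔣0 : 𝔣 ≠ ⊥ := by
    rw [h𝔣, Ne, Ideal.span_singleton_eq_bot]
    exact pow_ne_zero _ (by exact_mod_cast hp.ne_zero)
  have habove : ∀ v : Pl K, v.asIdeal ∣ 𝔣 → Above p v := by
    intro v hv
    rw [h𝔣, Ideal.dvd_span_singleton] at hv
    exact v.isPrime.mem_of_pow_mem _ hv
  have hsub : ∀ b : 𝓞 K, b ∈ 𝔣 → b ∈ Ideal.span {(p : 𝓞 K) ^ (M + k + 1)} := by
    intro b hb
    rw [h𝔣, Ideal.mem_span_singleton] at hb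
    rw [Ideal.mem_span_singleton]
    exact (pow_dvd_pow _ (by omega)).trans hb
  have hDp : ∀ (x : Kˣ) (b : 𝓞 K), (x : K) = algebraMap (𝓞 K) K b → b - 1 ∈ 𝔣 →
      Pk p (k + 1) x := by
    intro x b hx hb
    refine dpn hp fun w hw => ?_
    refine lt_of_le_of_lt (ea_above_one1 (by omega) hx hb hw) ?_
    rw [map_pow, map_pow]
    have ha1 := (above_iff p w).1 hw
    have ha0 : 0 < w.valuation K (p : K) := by
      rw [zero_lt_iff, Valuation.ne_zero_iff]
      exact_mod_cast hp.ne_zero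
    exact pow_lt_pow_right_of_lt_one₀ ha0 ha1 (by omega)
  have hbu : ∀ (x : Kˣ) (w : Pl K), b1 p ζ w x η = -(f₂ w * (ord w x : ZMod p)) := by
    intro x w
    by_cases hw : Above p w
    · simp only [hf₂, b1, if_pos hw, zero_mul, neg_zero]
    · rw [b1_symm hp (hζe ▸ hζ)]
      simp only [hf₂, b1, if_neg hw]
      rw [B_unit hp (hζe ▸ hζ) hw (ea_ord0 hp he w)]
      ring
  have hfs : ∀ w, f₁ w = κ w * f₂ w := by
    intro w
    simp only [hf₁, hf₂]
    split_ifs
    · rw [mul_zero]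
    · rfl
  have hray1 : IsRay p 𝔣 f₁ := by
    refine ⟨fun v hv => ?_, fun x b hx hb => ?_⟩
    · simp only [hf₁]
      rw [if_pos (habove v hv)]
    · have h1 := hκ x (hDp x b hx hb) η
      rw [eta_law hp hp2 hz he hx (hsub _ hb)] at h1
      have h2 := em_inj hp h1.symm
      rw [← hζe] at h2
      have h3 : ∀ w, κ w * b1 p ζ w x η = -(f₁ w * (ord w x : ZMod p)) := by
        intro w
        rw [hbu, hfs]
        ring
      rw [finsum_congr h3, finsum_neg_distrib, neg_eq_zero] at h2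
      exact h2
  have hray2 : IsRay p 𝔣 f₂ := by
    refine ⟨fun v hv => ?_, fun x b hx hb => ?_⟩
    · simp only [hf₂]
      rw [if_pos (habove v hv)]
    · have h1 := congrArg (ZMod.castHom (dvd_pow_self p (Nat.succ_ne_zero k)) (ZMod p))
        (eta_law hp hp2 hz he hx (hsub _ hb))
      rw [map_zero] at h1
      unfold Sk at h1
      have h2 := AddMonoidHom.map_finsum
        (ZMod.castHom (dvd_pow_self p (Nat.succ_ne_zero k)) (ZMod p)).toAddMonoidHom
        (f := fun v => Bk p (k + 1) z v x η) (bk_fin hp hz x η)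
      have h3 : ∑ᶠ w, b1 p ζ w x η = 0 := by
        rw [← h1]
        refine Eq.trans ?_ h2.symm
        refine finsum_congr fun w => ?_
        rw [hζe]
        exact (bk_b1 hp hz w x η).symm
      rw [finsum_congr (hbu x), finsum_neg_distrib, neg_eq_zero] at h3
      exact h3
  -- a relation
  have hrel : ∃ c : Fin 2 → ZMod p, (∀ v, ∑ i, c i * (![f₁, f₂] i) v = 0) ∧ c ≠ 0 := by
    by_contra hno
    push Not at hno
    obtain ⟨C, hC⟩ := den_ray hp h𝔣0 (m := 2) ![f₁, f₂] (by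
      intro i
      fin_cases i
      · exact hray1
      · exact hray2) hno
    obtain ⟨C', hC'⟩ := pz_spl hp (hζe ▸ hζ) he.npow
    have hsub : {v : Pl K | ¬ Above p v ∧ Spl p ζ v η} ⊆
        {v : Pl K | ∀ i, (![f₁, f₂] i) v = 0} := by
      rintro v ⟨hv, hs⟩ i
      have h2 := hspl v hv hs
      have h1 : f₁ v = 0 ∧ f₂ v = 0 := by
        simp only [hf₁, hf₂]
        rw [if_neg hv, if_neg hv, h2, mul_zero]
        exact ⟨rfl, rfl⟩
      fin_cases i
      · exact h1.1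
      · exact h1.2
    have hp3 : (2 : ℝ) ≤ p := by exact_mod_cast hp.two_le
    set D : ℝ := |C| + p * |C'| + 1 with hD
    have hDpos : 0 < D := by positivity
    set s : ℝ := 1 + Real.exp (-D) with hs
    have he1 : Real.exp (-D) ≤ 1 := Real.exp_le_one_iff.2 (by linarith)
    have he0 : 0 < Real.exp (-D) := Real.exp_pos _
    have hs1 : 1 < s := by rw [hs]; linarith
    have hs2 : s ≤ 2 := by rw [hs]; linarith
    have hlog : Real.log (1 / (s - 1)) = D := by
      rw [hs, add_sub_cancel_left, one_div, Real.log_inv, Real.log_exp, neg_neg]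
    have h1 := hC s hs1 hs2
    have h2 := (abs_le.1 (hC' s hs1 hs2)).1
    rw [hlog] at h1 h2
    have h3 := pz_mono hsub hs1
    have h4 : (p : ℝ) ^ 2 * PZ {v : Pl K | ¬ Above p v ∧ Spl p ζ v η} s ≤ D + C :=
      (mul_le_mul_of_nonneg_left h3 (by positivity)).trans h1
    have h5 : (p : ℝ) * (D - C') ≤
        (p : ℝ) ^ 2 * PZ {v : Pl K | ¬ Above p v ∧ Spl p ζ v η} s := by
      have h6 : D - C' ≤ p * PZ {v : Pl K | ¬ Above p v ∧ Spl p ζ v η} s := by linarith
      calc (p : ℝ) * (D - C') ≤ p * (p * PZ {v : Pl K | ¬ Above p v ∧ Spl p ζ v η} s) :=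
            mul_le_mul_of_nonneg_left h6 (by positivity)
        _ = _ := by ring
    have h7 : (p : ℝ) * D ≤ D + C + p * C' := by linarith
    have h8 : 2 * D ≤ p * D := mul_le_mul_of_nonneg_right hp3 hDpos.le
    have h9 : C ≤ |C| := le_abs_self C
    have h10 : (p : ℝ) * C' ≤ p * |C'| :=
      mul_le_mul_of_nonneg_left (le_abs_self C') (by positivity)
    linarith
  obtain ⟨c, hc, hc0⟩ := hrel
  have hc' : ∀ v, c 0 * f₁ v + c 1 * f₂ v = 0 := by
    intro v
    have := hc v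
    rw [Fin.sum_univ_two] at this
    exact this
  rw [← hζe] at h h'
  have hf₂v : f₂ v ≠ 0 := by
    simp only [hf₂]
    rw [if_neg hv]
    exact h
  have hf₂v' : f₂ v' ≠ 0 := by
    simp only [hf₂]
    rw [if_neg hv']
    exact h'
  have hi : c 0 ≠ 0 := by
    intro h0
    have h1 := hc' v
    rw [h0, zero_mul, zero_add] at h1
    have h2 := (mul_eq_zero.1 h1).resolve_right hf₂v
    apply hc0
    funext i
    fin_cases i
    · exact h0
    · exact h2
  have key : ∀ w, f₂ w ≠ 0 → κ w = -c 1 / c 0 := by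
    intro w hw
    have h1 := hc' w
    rw [hfs] at h1
    have h2 : (c 0 * κ w + c 1) * f₂ w = 0 := by linear_combination h1
    have h3 := (mul_eq_zero.1 h2).resolve_right hw
    rw [eq_div_iff hi]
    linear_combination h3
  rw [key v hf₂v, key v' hf₂v']

end H57.RQ.N
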