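import Pool.Agent.H57.RN.Def
import Pool.Agent.H57.RN.Loc
import Pool.Agent.H57.RQ.Tow
import Pool.Agent.H57.RN.Eta

/-!
# [H57 RN TOW] (all primes; copy of H57/RQ) the weights are constant, 120-180 lines. File Pool/Agent/H57/RQ/Tow.lean

`P K z κ` a predicate which implies `KP p k z κ`, with existence (`hE`) and constant difference in `K(η^(1/p))` (`hF`). Then `κ` is constant on the `v ∤ p`.
Claim for `j`, all `K`, `z`, `M`, `η`, `κ`: if `p ^ (M + j + 1)` does not divide `N v - 1`, `N v' - 1`, then `κ v = κ v'`. `j = 0`: `lg_v η ≠ 0` (`et_lg1`), `eta`.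
`j → j + 1`: `L` from `kum_exists` for `η`, `κ'` from `hE`, `w` over `v`, `w'` over `v'` (`exists_over`). `Et p k (algebraMap z) (M+1) γ` for the root `γ` (`kum_norm_γ`: `N γ = η s ^ p`, so if `γ = y ^ p` then `η` is a
`p`-th power) and `N w = N v`, or `N w = N v ^ p` and `v` is not split, `lg_v η ≠ 0`, `p ^ (M+1)` does not divide `N v - 1`, so `p ^ (M+2)` does not divide `N v ^ p - 1` (`split_case`, `nonsplit_case`, `spl_split`, `et_lg1`). So
`p ^ ((M+1) + j + 1)` does not divide `N w - 1`; the claim for `j` and `L`: `κ' w = κ' w'`, and `hF`.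
-/

set_option autoImplicit false

open scoped NumberField
open IsDedekindDomain
open scoped Classical

noncomputable section

namespace H57.RQ.N

open H63.MA

theorem tow_et {K : Type} [Field K] [NumberField K] {L : Type} [Field L] [NumberField L]
    [Algebra K L] {p k : ℕ} (hp : p.Prime) (hp2 : MM p (k + 1) K) {z : K}
    (hz : IsPrimitiveRoot z (p ^ (k + 1))) {M : ℕ} {η : Kˣ} (he : Et p k z M η)
    (H : Kum p K (z ^ p ^ k) η L) : Et p k (algebraMap K L z) (M + 1) H.γ := by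
  have : Fact p.Prime := ⟨hp⟩
  have hζ := col_zeta hp hz
  refine ⟨?_, ?_, ?_, ?_⟩
  · have h1 : orderOf (H.γ : L) = p ^ (M + 1) := by
      apply orderOf_eq_prime_pow
      · intro h
        obtain ⟨m, hm⟩ : ∃ m, M = m + 1 := ⟨M - 1, by have := he.le; omega⟩
        rw [hm, pow_succ', pow_mul, H.hγ, ← map_pow] at h
        have h2 : (η : K) ^ p ^ m = 1 := by
          apply (algebraMap K L).injective
          rw [h, map_one]
        have h3 := he.prim.dvd_of_pow_eq_one _ h2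
        rw [hm] at h3
        have h4 := (Nat.pow_dvd_pow_iff_le_right hp.one_lt).1 h3
        omega
      · rw [pow_succ', pow_mul, H.hγ, ← map_pow, he.prim.pow_eq_one, map_one]
    rw [← h1]
    exact IsPrimitiveRoot.orderOf _
  · exact he.le.trans (Nat.le_succ M)
  · have h1 : M + 1 - (k + 1) = (M - (k + 1)) + 1 := by
      have := he.le
      omega
    rw [h1, pow_succ', pow_mul, H.hγ, ← map_pow, he.pow]
  · rintro ⟨y, hy⟩
    obtain ⟨r, _, hr⟩ := kum_norm_γ hp hζ H (hp2.one)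
    apply he.npow
    refine ⟨Nm K L y * r⁻¹, ?_⟩
    rw [mul_pow, ← map_pow, hy, hr, inv_pow, mul_inv_cancel_right]

theorem tow_lte {p : ℕ} (hp : p.Prime) {n M : ℕ} (hM : 1 ≤ M) (hpM : 2 < p ^ M) (hn : 1 < n)
    (h1 : p ^ M ∣ n - 1) (h2 : ¬ p ^ (M + 1) ∣ n - 1) : ¬ p ^ (M + 2) ∣ n ^ p - 1 := by
  by_cases hp2 : p = 2
  · subst hp2
    obtain ⟨m, rfl⟩ : ∃ m, M = m + 2 := by
      refine ⟨M - 2, ?_⟩
      have : M ≠ 1 := by
        rintro rfl
        norm_num at hpM
      omega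
    obtain ⟨c, hc⟩ := h1
    have hn1 : n = 2 ^ (m + 2) * c + 1 := by omega
    have hcodd : ¬ 2 ∣ c := by
      rintro ⟨d, rfl⟩
      apply h2
      rw [hc]
      exact ⟨d, by ring⟩
    have e1 : n ^ 2 - 1 = 2 ^ (m + 2 + 1) * (c * (2 ^ (m + 1) * c + 1)) := by
      have h3 : n ^ 2 = 2 ^ (m + 2 + 1) * (c * (2 ^ (m + 1) * c + 1)) + 1 := by
        rw [hn1]
        ring
      omega
    rw [e1]
    intro hd
    have h4 : (2 : ℕ) ^ (m + 2 + 1) * 2 ∣ 2 ^ (m + 2 + 1) * (c * (2 ^ (m + 1) * c + 1)) := by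
      rw [← pow_succ]
      exact hd
    have h5 := Nat.dvd_of_mul_dvd_mul_left (by positivity) h4
    rcases (Nat.Prime.dvd_mul Nat.prime_two).1 h5 with h6 | h6
    · exact hcodd h6
    · have h7 : 2 ∣ 2 ^ (m + 1) * c := ⟨2 ^ m * c, by ring⟩
      have h8 := (Nat.dvd_add_right h7).1 h6
      omega
  · exact H57.RQ.tow_lte hp hp2 hM hn h1 h2

theorem tow_up {K : Type} [Field K] [NumberField K] {L : Type} [Field L] [NumberField L]
    [Algebra K L] {p k : ℕ} (hp : p.Prime) (hp2 : MM p (k + 1) K) {z : K}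
    (hz : IsPrimitiveRoot z (p ^ (k + 1))) {M : ℕ} {η : Kˣ} (he : Et p k z M η)
    (H : Kum p K (z ^ p ^ k) η L) {v : Pl K} (hv : ¬ Above p v) {w : Pl L} (hw : Over w v) {j : ℕ}
    (h : ¬ p ^ (M + (j + 1) + 1) ∣ nm v - 1) : ¬ p ^ (M + 1 + j + 1) ∣ nm w - 1 := by
  have hζ := col_zeta hp hz
  have hj : M + 1 + j + 1 = M + (j + 1) + 1 := by ring
  rw [hj]
  rcases card_over hp hζ H v with h1 | h1
  · rcases nonsplit_case hp hζ H h1 hw with h2 | h2
    · rw [h2.2.1]
      exact h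
    · have hns : lg p (z ^ p ^ k) v η ≠ 0 := by
        intro h3
        have h4 : Spl p (z ^ p ^ k) v η := by
          intro a
          rw [B_unit hp hζ hv (tow_ord hp he v), h3, mul_zero]
        rw [spl_split hp hζ H hv h4] at h1
        exact hp.one_lt.ne' h1
      have hd := (et_lg1 hp hz he hv).1
      have hnd : ¬ p ^ (M + 1) ∣ nm v - 1 := by
        intro h3
        apply hns
        rw [(et_lg1 hp hz he hv).2, ZMod.natCast_eq_zero_iff]
        rw [pow_succ] at h3
        exact (Nat.dvd_div_iff_mul_dvd hd).2 h3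
      have h5 := tow_lte hp (by have := he.le; omega) (et_two hp hp2.one he) (one_lt_nm v) hd hnd
      rw [h2.2]
      intro h6
      exact h5 ((pow_dvd_pow p (by omega)).trans h6)
  · rw [(split_case hp hζ H h1 hw).2.1]
    exact h

theorem tow {p k : ℕ} (hp : p.Prime)
    (P : ∀ (K : Type) [Field K] [NumberField K], K → (Pl K → ZMod p) → Prop)
    (hP : ∀ (K : Type) [Field K] [NumberField K] (z : K) (κ : Pl K → ZMod p), P K z κ → KP p k z κ)
    (hE : ∀ (K : Type) [Field K] [NumberField K] (z : K), IsPrimitiveRoot z (p ^ (k + 1)) →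
      MM p (k + 1) K → ∃ κ : Pl K → ZMod p, P K z κ)
    (hF : ∀ (K : Type) [Field K] [NumberField K] (L : Type) [Field L] [NumberField L] [Algebra K L]
      (z : K), IsPrimitiveRoot z (p ^ (k + 1)) → MM p (k + 1) K → ∀ (M : ℕ) (η : Kˣ), Et p k z M η →
      Kum p K (z ^ p ^ k) η L → ∀ (κ : Pl K → ZMod p) (κ' : Pl L → ZMod p), P K z κ →
      P L (algebraMap K L z) κ' → ∀ w₁ w₂ : Pl L, ¬ Above p w₁ → ¬ Above p w₂ →
      κ' w₁ - κ (dnv K w₁) = κ' w₂ - κ (dnv K w₂))
    (K : Type) [Field K] [NumberField K] (z : K) (hz : IsPrimitiveRoot z (p ^ (k + 1)))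
    (hm : MM p (k + 1) K) (κ : Pl K → ZMod p) (hκ : P K z κ) (v v' : Pl K) (hv : ¬ Above p v) (hv' : ¬ Above p v') :
    κ v = κ v' := by
  have claim : ∀ (j : ℕ) (K : Type) [Field K] [NumberField K] (z : K),
      IsPrimitiveRoot z (p ^ (k + 1)) → MM p (k + 1) K → ∀ (M : ℕ) (η : Kˣ), Et p k z M η →
      ∀ (κ : Pl K → ZMod p), P K z κ → ∀ v v' : Pl K, ¬ Above p v → ¬ Above p v' →
      ¬ p ^ (M + j + 1) ∣ nm v - 1 → ¬ p ^ (M + j + 1) ∣ nm v' - 1 → κ v = κ v' := by
    intro j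
    induction j with
    | zero =>
      intro K _ _ z hz hp2 M η he κ hκ v v' hv hv' h h'
      exact eta hp hp2 hz he (hP K z κ hκ) hv hv' (tow_zero hp hz he hv h)
        (tow_zero hp hz he hv' h')
    | succ j ih =>
      intro K _ _ z hz hp2 M η he κ hκ v v' hv hv' h h'
      obtain ⟨L, i1, i2, i3, ⟨H⟩⟩ := kum_exists hp (col_zeta hp hz) he.npow
      have hzL : IsPrimitiveRoot (algebraMap K L z) (p ^ (k + 1)) :=
        hz.map_of_injective (algebraMap K L).injective
      obtain ⟨κ', hκ'⟩ := hE L (algebraMap K L z) hzL (hp2.up L)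
      obtain ⟨w, hw⟩ := exists_over (L := L) v
      obtain ⟨w', hw'⟩ := exists_over (L := L) v'
      have hwa : ¬ Above p w := fun hh => hv ((above_over hw p).1 hh)
      have hwa' : ¬ Above p w' := fun hh => hv' ((above_over hw' p).1 hh)
      have e1 := ih L (algebraMap K L z) hzL (hp2.up L) (M + 1) H.γ (tow_et hp hp2 hz he H) κ' hκ' w w'
        hwa hwa' (tow_up hp hp2 hz he H hv hw h) (tow_up hp hp2 hz he H hv' hw' h')
      have e2 := hF K L z hz hp2 M η he H κ κ' hκ hκ' w w' hwa hwa'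
      rw [below_unique (dnv_over K w) hw, below_unique (dnv_over K w') hw', e1] at e2
      exact sub_right_injective e2
  obtain ⟨M, η, he⟩ := et_ex hp hz
  have hbig : ∀ u : Pl K, nm u ≤ nm v + nm v' → ¬ p ^ (M + (nm v + nm v') + 1) ∣ nm u - 1 := by
    intro u hu hd
    have h1 := one_lt_nm u
    have h2 := Nat.le_of_dvd (by omega) hd
    have h3 : M + (nm v + nm v') + 1 < p ^ (M + (nm v + nm v') + 1) := Nat.lt_pow_self hp.one_lt
    omega
  exact claim (nm v + nm v') K z hz hm M η he κ hκ v v' hv hv' (hbig v (by omega)) (hbig v' (by omega))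

end H57.RQ.N
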