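import Pool.Agent.H57.RN.Def
import Pool.Agent.H57.RN.Loc
import Pool.Agent.H57.RQ.Rec
import Pool.Agent.H57.RN.Tow
import Pool.Agent.H57.RN.Fnm
import Pool.Agent.H1.AR.Knn

/-!
# [H57 RN REC] (all primes; copy of H57/RQ) the reciprocity law of order `p ^ k`, 120-200 lines. File Pool/Agent/H57/RQ/Rec.lean

* `exw0`: a prime `w₀ ∤ p` of prime norm (`H1.AR.knn` for `η` from `et_ex`).
* `ro`: `Ro p`. `tow` with `k = 0`, `P K ζ κ = (KP p 0 ζ κ ∧ κ v = 0 for v ∤ p of prime norm)`. `hE`: `lam` from `exists_rec_one`, `κ = 1 - lam` at `v ∤ p`: `∑ lam b1 = 0` (`IsRec.sum`, `pk_prim`), so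
  `Sk p 1 z x a = em p 0 (∑ b1) = em p 0 (∑ κ b1)` (`bk_b1`, `em_cast` for `k = 0`). `hF`: `fnm` with `lam` from `exists_rec_one` for `L`, `w₀ ∈ Pl L` of prime norm: the prime below has prime norm
  (`nm_over`), so `i = 0 - 0 = 0`. So `κ` is constant, `= κ v₀ = 0` for `v₀` of prime norm. (`algebraMap (z ^ p ^ 0) = algebraMap z`, `pow_zero`, `pow_one`.)
* `rk`: induction on `k`. `k = 0`: `ZMod 1`. `k → k + 1`: `kap`, `tow` with `P = KP p k` (`hF`: `fnm` with `lam = 1`, `Ro`), so `κ` is constant `= c` on the `v ∤ p`, `∑ κ b1 = c ∑ b1 = 0`.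
-/

set_option autoImplicit false

open scoped NumberField
open IsDedekindDomain
open scoped Classical

noncomputable section

namespace H57.RQ.N

open H63.MA

private theorem rec_prim {p k : ℕ} (hp : p.Prime) {K : Type} [Field K] {z : K}
    (hz : IsPrimitiveRoot z (p ^ (k + 1))) : IsPrimitiveRoot (z ^ p ^ k) p :=
  hz.pow (pow_pos hp.pos _) (by rw [pow_succ])

theorem exw0 {p : ℕ} (hp : p.Prime) (K : Type) [Field K] [NumberField K] (hm : MOne p K) {ζ : K}
    (hζ : IsPrimitiveRoot ζ p) : ∃ w : Pl K, ¬ Above p w ∧ (nm w).Prime := by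
  obtain ⟨M, η, he⟩ := et_ex (k := 0) hp (z := ζ) (by simpa using hζ)
  obtain ⟨w, -, h1, h2, -⟩ := H1.AR.knn hp hm hζ he.npow ∅
  exact ⟨w, h1, h2⟩

/-- the sum of the symbols of order `p` -/
private theorem rec_sum0 {p : ℕ} (hp : p.Prime) {K : Type} [Field K] [NumberField K] {z : K}
    (hz : IsPrimitiveRoot z (p ^ (0 + 1))) (x a : Kˣ) :
    Sk p (0 + 1) z x a = em p 0 (∑ᶠ v, b1 p (z ^ p ^ 0) v x a) := by
  have h1 := em_cast (k := 0) hp (Sk p (0 + 1) z x a)
  rw [pow_zero, one_mul] at h1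
  rw [← h1]
  congr 1
  unfold Sk
  have h2 := AddMonoidHom.map_finsum (ZMod.castHom (dvd_pow_self p (Nat.succ_ne_zero 0))
    (ZMod p)).toAddMonoidHom (f := fun v => Bk p (0 + 1) z v x a) (bk_fin hp hz x a)
  refine Eq.trans h2 (finsum_congr fun v => ?_)
  exact bk_b1 hp hz v x a

/-- the weights of a law of order `p` -/
private theorem rec_lam {p : ℕ} {K : Type} [Field K] [NumberField K] (hp : p.Prime) {ζ : K}
    {lam : Pl K → ZMod p} (h : IsRec p ζ lam) (x : Kˣ) (hx : Pk p 1 x) (a : Kˣ) :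
    ∑ᶠ v, lam v * b1 p ζ v x a = 0 := by
  rw [← h.sum x (pk_prim (k := 0) hp hx) a]
  refine finsum_congr fun v => ?_
  unfold b1
  by_cases hv : Above p v
  · rw [h.above v hv, zero_mul, zero_mul]
  · rw [if_neg hv]

private theorem rec_ex {p : ℕ} (hp : p.Prime) (K : Type) [Field K] [NumberField K]
    (hp2 : MM p (0 + 1) K) (z : K) (hz : IsPrimitiveRoot z (p ^ (0 + 1))) : ∃ κ : Pl K → ZMod p, KP p 0 z κ ∧
      ∀ v, ¬ Above p v → (nm v).Prime → κ v = 0 := by
  have hζ := rec_prim hp hz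
  obtain ⟨lam, hl, hl1⟩ := exists_rec_one K hp (hp2.one) hζ
  refine ⟨fun v => 1 - lam v, ?_, ?_⟩
  · intro x hx a
    rw [rec_sum0 hp hz]
    congr 1
    have hfin := b1_fin hp hζ x a
    have h2 : ∑ᶠ v, (1 - lam v) * b1 p (z ^ p ^ 0) v x a =
        ∑ᶠ v, b1 p (z ^ p ^ 0) v x a - ∑ᶠ v, lam v * b1 p (z ^ p ^ 0) v x a := by
      rw [← finsum_sub_distrib]
      · refine finsum_congr fun v => ?_
        rw [sub_mul, one_mul]
      · exact hfin
      · refine hfin.subset fun v hv => ?_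
        intro h0
        apply hv
        show lam v * b1 p (z ^ p ^ 0) v x a = 0
        rw [h0, mul_zero]
    rw [h2, rec_lam hp hl x hx a, sub_zero]
  · intro v hv hn
    show 1 - lam v = 0
    rw [hl1 v hv hn, sub_self]

private theorem rec_dnv {p : ℕ} {K L : Type} [Field K] [NumberField K] [Field L] [NumberField L]
    [Algebra K L] {w : Pl L} (hw : ¬ Above p w) (hn : (nm w).Prime) :
    ¬ Above p (dnv K w) ∧ (nm (dnv K w)).Prime := by
  have ho := dnv_over K w
  refine ⟨fun h => hw ((above_over ho p).2 h), ?_⟩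
  obtain ⟨f, hf, h⟩ := nm_over ho
  rw [h] at hn
  have hf1 : f = 1 := by
    by_contra hne
    exact (Nat.Prime.not_prime_pow (by omega)) hn
  rw [hf1, pow_one] at hn
  exact hn

theorem ro {p : ℕ} (hp : p.Prime) : Ro p := by
  have key : ∀ (K : Type) [Field K] [NumberField K] (z : K), IsPrimitiveRoot z (p ^ (0 + 1)) →
      MM p (0 + 1) K → ∀ x : Kˣ, Pk p 1 x → ∀ a : Kˣ, ∑ᶠ v, b1 p (z ^ p ^ 0) v x a = 0 := by
    intro K _ _ z hz hp2 x hx a
    obtain ⟨κ, hκ, hκ0⟩ := rec_ex hp K hp2 z hz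
    have hc := tow (k := 0) hp
      (fun K _ _ z κ => KP p 0 z κ ∧ ∀ v, ¬ Above p v → (nm v).Prime → κ v = 0)
      (fun K _ _ z κ h => h.1) (fun K _ _ z hz hm => rec_ex hp K hm z hz)
      (by
        intro K _ _ L _ _ _ z hz hp2 M η he H κ κ' h1 h2 w₁ w₂ hw₁ hw₂
        have hζ : IsPrimitiveRoot (algebraMap K L (z ^ p ^ 0)) p :=
          (rec_prim hp hz).map_of_injective (algebraMap K L).injective
        obtain ⟨lam, hl, hl1⟩ := exists_rec_one L hp ((hp2.up L).one) hζ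
        obtain ⟨w₀, hw₀, hn₀⟩ := exw0 hp L (hp2.up L).one hζ
        obtain ⟨i, hi0, hi1, hi2⟩ := fnm hp hp2 hz he H h1.1 h2.1
          (fun x hx a => rec_lam hp hl x hx a) hl1 hw₀ hn₀ hw₁ hw₂
        have hd := rec_dnv (K := K) hw₀ hn₀
        rw [h2.2 w₀ hw₀ hn₀, h1.2 _ hd.1 hd.2, sub_zero] at hi0
        rw [hi1, hi2, ← hi0, zero_mul, zero_mul])
      K z hz hp2 κ ⟨hκ, hκ0⟩
    obtain ⟨w, hw, hn⟩ := exw0 hp K hp2.one (rec_prim hp hz)
    have h1 := hκ x hx a
    have h2 : ∑ᶠ v, κ v * b1 p (z ^ p ^ 0) v x a = 0 := by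
      rw [← finsum_zero (M := ZMod p) (α := Pl K)]
      refine finsum_congr fun v => ?_
      by_cases hv : Above p v
      · unfold b1
        rw [if_pos hv, mul_zero]
      · rw [hc v w hv hw, hκ0 w hw hn, zero_mul]
    rw [h2, em_zero hp, rec_sum0 hp hz] at h1
    exact em_inj hp h1
  intro K _ _ ζ hζ hm x hx a
  have h := key K ζ (by simpa using hζ) (MM.of hm) x hx a
  simpa using h

theorem rk {p : ℕ} (hp : p.Prime) (k : ℕ) : Rk p k := by
  induction k with
  | zero =>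
    intro K _ _ z hz hm x hx a
    have : Subsingleton (ZMod (p ^ 0)) := by
      rw [pow_zero]
      infer_instance
    exact Subsingleton.elim _ _
  | succ k ih =>
    have hO := ro hp
    intro K _ _ z hz hp2 x hx a
    obtain ⟨κ, hκ⟩ := kap hp hp2 hO ih hz
    have hc := tow (k := k) hp (fun K _ _ z κ => KP p k z κ) (fun K _ _ z κ h => h)
      (fun K _ _ z hz hm => kap hp hm hO ih hz)
      (by
        intro K _ _ L _ _ _ z hz hp2 M η he H κ κ' h1 h2 w₁ w₂ hw₁ hw₂
        have hζ : IsPrimitiveRoot (algebraMap K L (z ^ p ^ k)) p :=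
          (rec_prim hp hz).map_of_injective (algebraMap K L).injective
        obtain ⟨w₀, hw₀, hn₀⟩ := exw0 hp L (hp2.up L).one hζ
        obtain ⟨i, hi0, hi1, hi2⟩ := fnm (lam := fun _ => 1) hp hp2 hz he H h1 h2
          (fun x hx a => by
            have := hO L _ hζ (hp2.up L).one x hx a
            simpa using this) (fun _ _ _ => rfl) hw₀ hn₀ hw₁ hw₂
        rw [hi1, hi2])
      K z hz hp2 κ hκ
    obtain ⟨w, hw, -⟩ := exw0 hp K hp2.one (rec_prim hp hz)
    rw [hκ x hx a]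
    have hx1 : Pk p 1 x := by
      have h1 : ∀ j : ℕ, Pk p (j + 1) x → Pk p 1 x := by
        intro j
        induction j with
        | zero => exact fun h => h
        | succ j ihj => exact fun h => ihj (pk_le hp h)
      exact h1 k hx
    have h2 : ∑ᶠ v, κ v * b1 p (z ^ p ^ k) v x a = κ w * ∑ᶠ v, b1 p (z ^ p ^ k) v x a := by
      rw [mul_finsum' _ _ (b1_fin hp (rec_prim hp hz) x a)]
      refine finsum_congr fun v => ?_
      by_cases hv : Above p v
      · unfold b1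
        rw [if_pos hv, mul_zero, mul_zero]
      · rw [hc v w hv hw]
    rw [h2, hO K _ (rec_prim hp hz) hp2.one x hx1 a, mul_zero, em_zero hp]

end H57.RQ.N
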