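import Pool.Agent.H57.RN.Def
import Pool.Agent.H57.RN.Loc
import Pool.Agent.H57.RQ.Rck
import Pool.Agent.H57.RQ.Loc
import Pool.Agent.H57.RQ.Sym
import Pool.Agent.H51.CUB.CHI

/-!
# [H57 RN RCK] (all primes; copy of H57/RQ) ray class characters of order `p ^ k`, 120-200 lines. File Pool/Agent/H57/RQ/Rck.lean

`r w = Bk p k z w δ π` for `w ∤ 𝔣` (`ord w π = 1`; independent of `π`: `ord w δ` is divisible by `p ^ k`, so `B = lg (δ π ^ (- ord w δ))` up to the power), `r w = 0` for `w ∣ 𝔣`. For `x = a ∈ 𝓞 K`, `a - 1 ∈ 𝔣`: `Dp p (k+1) x`, so `Pk p k x`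
(`dp_pk`) and `0 = Sk x δ = - ∑ Bk_w(δ, x)`; `Bk_w(δ, x) = ord_w x r w` for `w ∤ 𝔣`, `0` for `w ∣ 𝔣`, `w ∤ p` (`bk_one1`). So `r` is `IsRay (p ^ k) 𝔣`, and `ray_rc` (H63/MA/RayC.lean) has to be repeated for the order `p ^ k`
(`ep_add` etc. for `p ^ k`: copy of `ray_rc`, `ep_add`, `ep_norm` with `NeZero`; public lemmas `epq_add`, `epq_norm`, `epq_one`). Model: `chi_ex` in Pool/Agent/H51/CUB/CHI.lean.
* `rck_non`: if `δ` is not a `p ^ k`-th power ... is NOT needed here.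
-/

set_option autoImplicit false

open scoped NumberField
open IsDedekindDomain
open scoped Classical

noncomputable section

namespace H57.RQ.N

open H63.MA

variable {K : Type} [Field K] [NumberField K] {p k : ℕ} {z : K}

private theorem rck_above {w : Pl K} {𝔣 : Ideal (𝓞 K)} {n : ℕ} (hn : 0 < n)
    (h3 : Ideal.span {(p : 𝓞 K) ^ n} ∣ 𝔣) (hw : Above p w) : w.asIdeal ∣ 𝔣 := by
  refine dvd_trans ?_ h3
  rw [Ideal.dvd_span_singleton]
  exact Ideal.pow_mem_of_mem _ hw n hn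

private theorem rck_dp (hp : p.Prime) {n : ℕ} {x : Kˣ} {a : 𝓞 K}
    (hx : (x : K) = algebraMap (𝓞 K) K a) (ha : a - 1 ∈ Ideal.span {(p : 𝓞 K) ^ (n + 1)}) :
    Dp p n x := by
  intro v hv
  obtain ⟨b, hb⟩ := Ideal.mem_span_singleton'.1 ha
  have h1 : (x : K) - 1 = algebraMap (𝓞 K) K b * (p : K) ^ (n + 1) := by
    have h2 : algebraMap (𝓞 K) K (b * (p : 𝓞 K) ^ (n + 1)) = algebraMap (𝓞 K) K (a - 1) := by rw [hb]
    rw [map_mul, map_pow, map_natCast, map_sub, map_one, ← hx] at h2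
    exact h2.symm
  have h3 := (above_iff p v).1 hv
  have h4 : v.valuation K (p : K) ≠ 0 := by
    rw [Valuation.ne_zero_iff]
    exact_mod_cast hp.ne_zero
  rw [h1, map_mul, map_pow, map_pow]
  calc v.valuation K (algebraMap (𝓞 K) K b) * v.valuation K (p : K) ^ (n + 1)
      ≤ 1 * v.valuation K (p : K) ^ (n + 1) := by
        gcongr
        exact v.valuation_le_one b
    _ = v.valuation K (p : K) ^ n * v.valuation K (p : K) := by rw [one_mul, pow_succ]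
    _ < v.valuation K (p : K) ^ n * 1 := by
        have h5 : 0 < v.valuation K (p : K) ^ n := zero_lt_iff.2 (pow_ne_zero n h4)
        exact (mul_lt_mul_iff_right₀ h5).2 h3
    _ = v.valuation K (p : K) ^ n := mul_one _

private theorem rck_one1 {v : Pl K} {x : Kˣ} {a : 𝓞 K}
    (hx : (x : K) = algebraMap (𝓞 K) K a) (ha : a - 1 ∈ v.asIdeal) : One1 v x := by
  unfold One1
  have h1 : (x : K) - 1 = algebraMap (𝓞 K) K (a - 1) := by
    rw [map_sub, map_one, hx]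
  rw [h1]
  exact (v.valuation_lt_one_iff_mem (a - 1)).2 ha

private theorem rck_qz (q : ℕ) {n : ℤ} (h : (q : ℤ) ∣ n) (s : ZMod q) :
    (n : ZMod q) * s = 0 := by
  rw [(ZMod.intCast_zmod_eq_zero_iff_dvd n q).2 h, zero_mul]

/-- the symbol of `δ` at a prime where its order is divisible by `q` -/
private theorem rck_bk (hp : p.Prime) (hz : IsPrimitiveRoot z (p ^ k)) (δ : Kˣ) {w : Pl K}
    (hw : ¬ Above p w) (hd : ((p ^ k : ℕ) : ℤ) ∣ ord w δ) {π : Kˣ} (hπ : ord w π = 1) (x : Kˣ) :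
    Bk p k z w δ x = ord w x * lg (p ^ k) z w (δ * (π ^ ord w δ)⁻¹) := by
  have h0 : ord w (δ * (π ^ ord w δ)⁻¹) = 0 := by
    rw [ord_mul, ord_inv, ord_zpow, hπ]
    ring
  have h1 : δ = (δ * (π ^ ord w δ)⁻¹) * π ^ ord w δ := by
    rw [mul_assoc, inv_mul_cancel, mul_one]
  conv_lhs => rw [h1]
  rw [bk_mul_left hp hz, bk_zpow_left hp hz, rck_qz (p ^ k) hd, add_zero, bk_unit hp hz hw h0]

theorem rck (hp : p.Prime) (hp2 : MM p k K) (hR : Rk p k) (hz : IsPrimitiveRoot z (p ^ k)) (δ : Kˣ)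
    (𝔣 : Ideal (𝓞 K)) (h𝔣 : 𝔣 ≠ ⊥) (h3 : Ideal.span {(p : 𝓞 K) ^ (k + 2)} ∣ 𝔣)
    (hb : ∀ w : Pl K, ¬ Above p w → ¬ ((p ^ k : ℕ) : ℤ) ∣ ord w δ → w.asIdeal ∣ 𝔣) :
    ∃ χ : RC K 𝔣, ∀ w : Pl K, ¬ w.asIdeal ∣ 𝔣 → ∀ π : Kˣ, ord w π = 1 →
      χ.χ w.asIdeal = ep (p ^ k) (lg (p ^ k) z w (δ * (π ^ ord w δ)⁻¹)) := by
  have hq : 0 < p ^ k := pow_pos hp.pos _
  have : NeZero (p ^ k) := ⟨hq.ne'⟩
  have hab : ∀ w : Pl K, ¬ w.asIdeal ∣ 𝔣 → ¬ Above p w := fun w hw h' =>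
    hw (rck_above (Nat.succ_pos (k + 1)) h3 h')
  have hdv : ∀ w : Pl K, ¬ w.asIdeal ∣ 𝔣 → ((p ^ k : ℕ) : ℤ) ∣ ord w δ := fun w hw => by
    by_contra h'
    exact hw (hb w (hab w hw) h')
  obtain ⟨f, hf⟩ : ∃ f : Pl K → ZMod (p ^ k), f = fun w => if w.asIdeal ∣ 𝔣 then 0 else
      lg (p ^ k) z w (δ * ((exists_unif w).choose ^ ord w δ)⁻¹) := ⟨_, rfl⟩
  have hf1 : ∀ w : Pl K, w.asIdeal ∣ 𝔣 → f w = 0 := fun w hw => by rw [hf]; exact if_pos hw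
  have hf2 : ∀ w : Pl K, ¬ w.asIdeal ∣ 𝔣 → f w =
      lg (p ^ k) z w (δ * ((exists_unif w).choose ^ ord w δ)⁻¹) := fun w hw => by
    rw [hf]; exact if_neg hw
  have hf3 : ∀ w : Pl K, ¬ w.asIdeal ∣ 𝔣 → ∀ π : Kˣ, ord w π = 1 → f w =
      lg (p ^ k) z w (δ * (π ^ ord w δ)⁻¹) := by
    intro w hw π hπ
    have h1 := rck_bk hp hz δ (hab w hw) (hdv w hw) (exists_unif w).choose_spec π
    have h2 := rck_bk hp hz δ (hab w hw) (hdv w hw) hπ π
    rw [hπ, Int.cast_one, one_mul] at h1 h2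
    rw [hf2 w hw, ← h1, h2]
  have hray : IsRay (p ^ k) 𝔣 f := by
    refine ⟨hf1, fun x a hx ha => ?_⟩
    have hP : Pk p k x := dpn hp (rck_dp hp hx (Ideal.le_of_dvd h3 ha))
    have h0 : Sk p k z x δ = 0 := hR K z hz hp2 x hP δ
    have h1 : ∑ᶠ v, Bk p k z v δ x = 0 := by
      have h2 : ∀ v : Pl K, Bk p k z v δ x = -Bk p k z v x δ := fun v => bk_symm hp hz v δ x
      rw [finsum_congr h2, finsum_neg_distrib]
      unfold Sk at h0
      rw [h0, neg_zero]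
    rw [← h1]
    refine finsum_congr fun w => ?_
    by_cases hw : w.asIdeal ∣ 𝔣
    · rw [hf1 w hw, zero_mul, bk_one1 hp hz δ (rck_one1 hx (Ideal.le_of_dvd hw ha))]
    · rw [hf2 w hw, rck_bk hp hz δ (hab w hw) (hdv w hw) (exists_unif w).choose_spec x, mul_comm]
  obtain ⟨χ, hχ⟩ := ray_rcq h𝔣 hray
  exact ⟨χ, fun w hw π hπ => by rw [hχ w hw, hf3 w hw π hπ]⟩

end H57.RQ.N
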