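import Pool.Agent.H57.RQ.Rec

/-!
# H57 RN DEF: the reciprocity law of order `p ^ k` for all primes `p`, also `p = 2`

`MM p k K`: `-1` is a `p`-th power and a `p ^ k`-th power in `K` (nothing for odd `p`; for `p = 2`: `K` contains the roots of unity of order `4` and `2 ^ (k + 1)`).
-/

set_option autoImplicit false

open scoped NumberField
open IsDedekindDomain
open scoped Classical

noncomputable section

namespace H57.RQ.N

open H63.MA

/-- `-1` is a `p`-th power and a `p ^ k`-th power -/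
structure MM (p k : ℕ) (K : Type) [Field K] : Prop where
  one : MOne p K
  pow : MOne (p ^ k) K

theorem MM.up {p k : ℕ} {K : Type} [Field K] (h : MM p k K) (L : Type) [Field L] [Algebra K L] :
    MM p k L := by
  obtain ⟨⟨i, hi⟩, ⟨j, hj⟩⟩ := h
  refine ⟨⟨algebraMap K L i, ?_⟩, ⟨algebraMap K L j, ?_⟩⟩
  · rw [← map_pow, hi, map_neg, map_one]
  · rw [← map_pow, hj, map_neg, map_one]

theorem MM.le {p k : ℕ} {K : Type} [Field K] (h : MM p (k + 1) K) : MM p k K := by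
  obtain ⟨h1, ⟨j, hj⟩⟩ := h
  exact ⟨h1, ⟨j ^ p, by rw [← pow_mul, ← pow_succ', hj]⟩⟩

theorem MM.of {p : ℕ} {K : Type} [Field K] (h1 : MOne p K) : MM p 1 K :=
  ⟨h1, by rw [pow_one]; exact h1⟩

theorem MM.odd {p : ℕ} (hp : p.Prime) (hp2 : p ≠ 2) (k : ℕ) (K : Type) [Field K] : MM p k K := by
  have h1 : Odd p := hp.odd_of_ne_two hp2
  exact ⟨⟨-1, h1.neg_one_pow⟩, ⟨-1, (h1.pow).neg_one_pow⟩⟩

/-- the reciprocity law of order `p ^ k` -/
def Rk (p k : ℕ) : Prop := ∀ (K : Type) [Field K] [NumberField K] (z : K),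
  IsPrimitiveRoot z (p ^ k) → MM p k K → ∀ x : Kˣ, Pk p k x → ∀ a : Kˣ, Sk p k z x a = 0

/-- the law of order `p` -/
def Ro (p : ℕ) : Prop := ∀ (K : Type) [Field K] [NumberField K] (ζ : K), IsPrimitiveRoot ζ p →
  MOne p K → ∀ x : Kˣ, Pk p 1 x → ∀ a : Kˣ, ∑ᶠ v, b1 p ζ v x a = 0

theorem lq_neg {p k : ℕ} {K : Type} [Field K] [NumberField K] {z : K} (hp : p.Prime)
    (hm : MM p k K) (hz : IsPrimitiveRoot z (p ^ k)) {v : Pl K}
    (hv : ¬ Above p v) : lg (p ^ k) z v (-1) = 0 := by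
  obtain ⟨i, hi⟩ := hm.pow
  have hi0 : i ≠ 0 := by
    rintro rfl
    rw [zero_pow (pow_ne_zero _ hp.ne_zero)] at hi
    exact neg_ne_zero.2 one_ne_zero hi.symm
  have h2 : (Units.mk0 i hi0) ^ ((p ^ k : ℕ) : ℤ) = -1 := by
    rw [zpow_natCast]
    apply Units.ext
    rw [Units.val_pow_eq_pow_val, Units.val_mk0, hi, Units.val_neg, Units.val_one]
  have h0 : ord v (Units.mk0 i hi0) = 0 := by
    have h3 : ord v (-1 : Kˣ) = 0 := by
      rw [ord_eq_zero_iff, Units.val_neg, Units.val_one, Valuation.map_neg, map_one]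
    rw [← h2, ord_zpow] at h3
    rcases mul_eq_zero.1 h3 with h4 | h4
    · exact absurd (by exact_mod_cast h4) (pow_ne_zero k hp.ne_zero)
    · exact h4
  have h1 := lq_zpow hp hz hv h0 ((p ^ k : ℕ) : ℤ)
  rw [h2, Int.cast_natCast, ZMod.natCast_self, zero_mul] at h1
  exact h1

end H57.RQ.N
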